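import Pool.Agent.H92Cone.Names

/-!
A criterion for the cone conjecture.
-/

namespace Pool.Agent.H92Cone

open Pool.Agent.H93Cone Finset Filter Topology

variable {n : ℕ}

/-- Near each point of `A ∩ U`, the set `A` is cut out by finitely many rational half-spaces. -/
def LocallyRationalPolyhedral (A U : Set (Fin n → ℝ)) : Prop :=
  ∀ x ∈ A ∩ U, ∃ L : Finset (Fin n → ℚ), ∀ᶠ y in 𝓝 x, y ∈ A ↔ ∀ l ∈ L, 0 ≤ ratVec l ⬝ᵥ y

lemma intVec_norm {d : Fin n → ℤ} (hd : d ≠ 0) : 1 ≤ ‖intVec d‖ := by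
  obtain ⟨i, hi⟩ : ∃ i, d i ≠ 0 := by
    by_contra h
    push Not at h
    exact hd (funext h)
  have h1 := norm_le_pi_norm (intVec d) i
  have h2 : ‖intVec d i‖ = |(d i : ℝ)| := rfl
  rw [h2] at h1
  have h3 : (1 : ℝ) ≤ |(d i : ℝ)| := by
    have : 1 ≤ |d i| := Int.one_le_abs hi
    exact_mod_cast this
  linarith

/-- a nonzero effective class dominates a multiple of a nonzero integral effective class -/
lemma exists_integral_part {Eff : PointedCone ℝ (Fin n → ℝ)} {D : Set (Fin n → ℤ)}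
    (hEff : Eff = PointedCone.hull ℝ (intVec '' D)) {v : Fin n → ℝ} (hv : v ∈ Eff)
    (hv0 : v ≠ 0) :
    ∃ d : Fin n → ℤ, d ≠ 0 ∧ intVec d ∈ Eff ∧ ∃ a : ℝ, 0 < a ∧ v - a • intVec d ∈ Eff := by
  subst hEff
  have key : v = 0 ∨ ∃ d : Fin n → ℤ, d ≠ 0 ∧ intVec d ∈ PointedCone.hull ℝ (intVec '' D) ∧
      ∃ a : ℝ, 0 < a ∧ v - a • intVec d ∈ PointedCone.hull ℝ (intVec '' D) := by
    induction hv using Submodule.span_induction with
    | mem y hy =>
      obtain ⟨d, hd, rfl⟩ := hy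
      by_cases hd0 : d = 0
      · left; subst hd0; funext i; simp [intVec]
      · right
        refine ⟨d, hd0, Submodule.subset_span ⟨d, hd, rfl⟩, 1, one_pos, ?_⟩
        rw [one_smul, sub_self]; exact Submodule.zero_mem _
    | zero => left; rfl
    | add y z hy' hz' hy hz =>
      by_cases hy0 : y = 0
      · subst hy0; rw [zero_add]
        by_cases hz0 : z = 0
        · left; exact hz0
        · exact hz hz0
      · right
        rcases hy hy0 with h | ⟨d, hd0, hd, a, ha, h⟩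
        · exact absurd h hy0
        · refine ⟨d, hd0, hd, a, ha, ?_⟩
          have e : y + z - a • intVec d = (y - a • intVec d) + z := by abel
          rw [e]
          exact Submodule.add_mem _ h hz'
    | smul a y hy' hy =>
      have e0 : a • y = (a : ℝ) • y := rfl
      by_cases hy0 : y = 0
      · left; rw [hy0]; exact smul_zero a
      · rcases eq_or_lt_of_le a.2 with h0 | hpos
        · left; rw [e0, ← h0, zero_smul]
        · right
          rcases hy hy0 with h | ⟨d, hd0, hd, b, hb, h⟩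
          · exact absurd h hy0
          · refine ⟨d, hd0, hd, (a : ℝ) * b, mul_pos hpos hb, ?_⟩
            have e : a • y - ((a : ℝ) * b) • intVec d = (a : ℝ) • (y - b • intVec d) := by
              rw [e0, smul_sub, smul_smul]
            rw [e]
            exact PointedCone.smul_mem _ hpos.le h
  rcases key with h | h
  · exact absurd h hv0
  · exact h

lemma zero_not_mem_interior (hn : 0 < n) (Eff : PointedCone ℝ (Fin n → ℝ))
    (hsal : ∀ x, x ∈ closure (Eff : Set (Fin n → ℝ)) → -x ∈ closure (Eff : Set (Fin n → ℝ)) →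
      x = 0) : (0 : Fin n → ℝ) ∉ interior (Eff : Set (Fin n → ℝ)) := by
  intro h
  obtain ⟨ε, hε, hball⟩ := Metric.isOpen_iff.1 isOpen_interior 0 h
  set e : Fin n → ℝ := (ε / 2) • (Pi.single ⟨0, hn⟩ (1 : ℝ) : Fin n → ℝ) with he
  have hen : ‖e‖ < ε := by
    rw [he, norm_smul, Pi.norm_single, norm_one, mul_one, Real.norm_of_nonneg (by positivity)]
    linarith
  have h1 : e ∈ Eff := interior_subset (hball (by simpa using hen))
  have h2 : -e ∈ Eff := interior_subset (hball (by simpa using hen))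
  have h3 := hsal e (subset_closure h1) (subset_closure h2)
  have h4 := congrFun h3 ⟨0, hn⟩
  simp [he] at h4
  exact hε.ne' h4

/-- A nonzero effective class which is a limit of classes equivalent to classes of a compact set
of big classes is big. -/
theorem big_of_limit (hn : 0 < n)
    (Eff : PointedCone ℝ (Fin n → ℝ)) (D : Set (Fin n → ℤ))
    (hEff : Eff = PointedCone.hull ℝ (intVec '' D))
    (hsal : ∀ x, x ∈ closure (Eff : Set (Fin n → ℝ)) → -x ∈ closure (Eff : Set (Fin n → ℝ)) →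
      x = 0)
    (G : Subgroup (GL (Fin n) ℤ)) (hGEff : ∀ g ∈ G, ∀ x ∈ Eff, act g.val x ∈ Eff)
    {q : Fin n → ℚ} {c : ℝ} (hc : 0 < c) (hq : ∀ x ∈ Eff.closure, c * ‖x‖ ≤ ratVec q ⬝ᵥ x)
    (K : Set (Fin n → ℝ)) (hKc : IsCompact K) (hKsub : K ⊆ interior (Eff : Set (Fin n → ℝ)))
    (v : Fin n → ℝ) (hvE : v ∈ Eff) (hv0 : v ≠ 0)
    (x : ℕ → (Fin n → ℝ)) (hxE : ∀ m, x m ∈ Eff) (hxv : ∀ m, x m - v ∈ Eff)
    (hlim : Tendsto x atTop (𝓝 v))
    (hall : ∀ m, ∃ g ∈ G, ∃ t : ℝ, 0 < t ∧ act g.val (t • x m) ∈ K) :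
    v ∈ interior (Eff : Set (Fin n → ℝ)) := by
  classical
  have hGE : ∀ g ∈ G, ∀ x ∈ Eff.closure, act g.val x ∈ Eff.closure := by
    intro g hg x hx
    exact map_mem_closure (act_continuous _) hx (fun w hw => hGEff g hg w hw)
  have hEE : ∀ x ∈ Eff, x ∈ Eff.closure := fun x hx => subset_closure hx
  have hqnn : ∀ x ∈ Eff, 0 ≤ ratVec q ⬝ᵥ x := fun x hx =>
    (mul_nonneg hc.le (norm_nonneg _)).trans (hq _ (hEE _ hx))
  have h0 := zero_not_mem_interior hn Eff hsal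
  choose g hg t ht hgK using hall
  -- a bound for the scaling factors
  obtain ⟨d, hd0, hdE, a, ha, had⟩ := exists_integral_part hEff hvE hv0
  obtain ⟨M, hM⟩ : ∃ M : ℝ, ∀ k ∈ K, ratVec q ⬝ᵥ k ≤ M := by
    obtain ⟨M, hM⟩ := (hKc.image (continuous_dot (ratVec q))).bddAbove
    exact ⟨M, fun k hk => hM ⟨k, hk, rfl⟩⟩
  have hlow : ∀ m, a * c * t m ≤ M := by
    intro m
    have h1 := hM _ (hgK m)
    have hqr : 0 ≤ ratVec q ⬝ᵥ act (g m).val ((x m - v) + (v - a • intVec d)) :=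
      hqnn _ (hGEff _ (hg m) _ (Eff.add_mem (hxv m) had))
    have hqd : c ≤ ratVec q ⬝ᵥ act (g m).val (intVec d) := by
      have h4 := hq _ (hEE _ (hGEff _ (hg m) _ hdE))
      have h5 : act (g m).val (intVec d) = intVec ((g m).val.mulVec d) := act_intVec _ _
      have h6 : (g m).val.mulVec d ≠ 0 := by
        intro h
        rw [h] at h5
        have h7 : intVec (0 : Fin n → ℤ) = 0 := by funext i; simp [intVec]
        rw [h7] at h5
        have h8 : intVec d = 0 := act_injective (g m) (by rw [h5, map_zero])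
        apply hd0
        funext i
        have := congrFun h8 i
        simpa [intVec] using this
      rw [h5] at h4 ⊢
      have h7 := intVec_norm h6
      nlinarith
    have e : x m = a • intVec d + ((x m - v) + (v - a • intVec d)) := by abel
    rw [map_smul, dotProduct_smul, smul_eq_mul] at h1
    nth_rewrite 1 [e] at h1
    rw [map_add, dotProduct_add, map_smul, dotProduct_smul, smul_eq_mul] at h1
    have h9 := mul_nonneg (ht m).le hqr
    have h10 := mul_le_mul_of_nonneg_left hqd (mul_nonneg ha.le (ht m).le)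
    nlinarith
  set T : ℝ := M / (a * c) with hT
  have htT : ∀ m, t m ≤ T := by
    intro m
    rw [hT, le_div_iff₀ (mul_pos ha hc)]
    have := hlow m
    linarith
  have hTpos : 0 < T := lt_of_lt_of_le (ht 0) (htT 0)
  -- finitely many group elements
  obtain ⟨δ, hδ, hthick⟩ := hKc.exists_cthickening_subset_open isOpen_interior hKsub
  obtain ⟨M', hM'⟩ : ∃ M' : ℝ, ∀ m, ratVec q ⬝ᵥ x m ≤ M' := by
    obtain ⟨M', hM'⟩ := (((continuous_dot (ratVec q)).tendsto v).comp hlim).bddAbove_range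
    exact ⟨M', fun m => hM' ⟨m, rfl⟩⟩
  have hfin := finite_matrices Eff.closure q hc hδ hq (T * M')
  have hmem : ∀ m, ((g m)⁻¹ : GL (Fin n) ℤ).val ∈ {γ : Matrix (Fin n) (Fin n) ℤ |
      (∀ x ∈ Eff.closure, act γ x ∈ Eff.closure) ∧
      ∃ x₀, Metric.closedBall x₀ δ ⊆ (Eff.closure : Set (Fin n → ℝ)) ∧
        ratVec q ⬝ᵥ act γ x₀ ≤ T * M'} := by
    intro m
    refine ⟨hGE _ (G.inv_mem (hg m)), act (g m).val (t m • x m), ?_, ?_⟩
    · refine (Metric.closedBall_subset_cthickening (hgK m) δ).trans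
        (hthick.trans (interior_subset.trans subset_closure))
    · rw [act_val_inv, dotProduct_smul, smul_eq_mul]
      exact mul_le_mul (htT m) (hM' m) (hqnn _ (hxE m)) hTpos.le
  set 𝓗 := {γ : Matrix (Fin n) (Fin n) ℤ |
      (∀ x ∈ Eff.closure, act γ x ∈ Eff.closure) ∧
      ∃ x₀, Metric.closedBall x₀ δ ⊆ (Eff.closure : Set (Fin n → ℝ)) ∧
        ratVec q ⬝ᵥ act γ x₀ ≤ T * M'} with h𝓗
  -- the compact set
  set 𝓖 := {γ : Matrix (Fin n) (Fin n) ℤ | γ ∈ 𝓗 ∧ ∃ h ∈ G, h.val = γ} with h𝓖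
  have h𝓖fin : 𝓖.Finite := hfin.subset fun γ h => h.1
  have hZc : IsCompact (⋃ γ ∈ 𝓖, act γ '' K) :=
    h𝓖fin.isCompact_biUnion fun γ _ => hKc.image (act_continuous _)
  have hZsub : (⋃ γ ∈ 𝓖, act γ '' K) ⊆ interior (Eff : Set (Fin n → ℝ)) := by
    intro y hy
    obtain ⟨γ, ⟨_, h, hhG, rfl⟩, k, hk, rfl⟩ := Set.mem_iUnion₂.1 hy
    exact int_act hGEff hhG (hKsub hk)
  have htx : ∀ m, t m • x m ∈ ⋃ γ ∈ 𝓖, act γ '' K := by
    intro m
    refine Set.mem_iUnion₂.2 ⟨((g m)⁻¹ : GL (Fin n) ℤ).val, ⟨hmem m, _, G.inv_mem (hg m), rfl⟩,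
      _, hgK m, act_val_inv _ _⟩
  obtain ⟨s, hs, φ, hφ, hφlim⟩ := (isCompact_Icc (a := (0 : ℝ)) (b := T)).tendsto_subseq
    (x := t) (fun m => ⟨(ht m).le, htT m⟩)
  have hlim2 : Tendsto (fun m => t (φ m) • x (φ m)) atTop (𝓝 (s • v)) :=
    hφlim.smul (hlim.comp hφ.tendsto_atTop)
  have hsv : s • v ∈ ⋃ γ ∈ 𝓖, act γ '' K :=
    hZc.isClosed.mem_of_tendsto hlim2 (Eventually.of_forall fun m => htx (φ m))
  have hsvint := hZsub hsv
  rcases eq_or_lt_of_le hs.1 with hs0 | hspos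
  · rw [← hs0, zero_smul] at hsvint
    exact absurd hsvint h0
  · have := int_smul (inv_pos.2 hspos) hsvint
    rwa [smul_smul, inv_mul_cancel₀ hspos.ne', one_smul] at this

/-- a class of the effective cone as a finite positive combination of integral classes -/
lemma exists_rep {Eff : PointedCone ℝ (Fin n → ℝ)} {D : Set (Fin n → ℤ)}
    (hEff : Eff = PointedCone.hull ℝ (intVec '' D)) {v : Fin n → ℝ} (hv : v ∈ Eff) :
    ∃ (l : Finset (Fin n → ℤ)) (a : (Fin n → ℤ) → ℝ), (∀ d ∈ l, 0 < a d ∧ intVec d ∈ Eff) ∧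
      v = ∑ d ∈ l, a d • intVec d := by
  classical
  have hsub : ∀ d ∈ D, intVec d ∈ Eff := by
    intro d hd; rw [hEff]; exact Submodule.subset_span ⟨d, hd, rfl⟩
  have key : ∃ (l : Finset (Fin n → ℤ)) (a : (Fin n → ℤ) → ℝ), (∀ d ∈ l, d ∈ D) ∧
      (∀ d, 0 ≤ a d) ∧ (∀ d, d ∉ l → a d = 0) ∧ v = ∑ d ∈ l, a d • intVec d := by
    rw [hEff] at hv
    induction hv using Submodule.span_induction with
    | mem y hy =>
      obtain ⟨d, hd, rfl⟩ := hy
      refine ⟨{d}, fun t => if t = d then 1 else 0, by simpa using hd, fun t => ?_, fun t ht => ?_,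
        by simp⟩
      · dsimp only; split_ifs <;> norm_num
      · rw [Finset.mem_singleton] at ht; simp [ht]
    | zero => exact ⟨∅, fun _ => 0, by simp, by simp, by simp, by simp⟩
    | add y z _ _ hy hz =>
      obtain ⟨l, a, h1, h2, h3, rfl⟩ := hy
      obtain ⟨l', a', h1', h2', h3', rfl⟩ := hz
      refine ⟨l ∪ l', fun d => a d + a' d, fun d hd => ?_, fun d => add_nonneg (h2 d) (h2' d),
        fun d hd => ?_, ?_⟩
      · rcases Finset.mem_union.1 hd with h | h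
        · exact h1 d h
        · exact h1' d h
      · rw [Finset.mem_union, not_or] at hd
        show a d + a' d = 0
        rw [h3 d hd.1, h3' d hd.2, add_zero]
      · have e1 : ∑ d ∈ l, a d • intVec d = ∑ d ∈ l ∪ l', a d • intVec d :=
          Finset.sum_subset Finset.subset_union_left fun d _ hd => by rw [h3 d hd, zero_smul]
        have e2 : ∑ d ∈ l', a' d • intVec d = ∑ d ∈ l ∪ l', a' d • intVec d :=
          Finset.sum_subset Finset.subset_union_right fun d _ hd => by rw [h3' d hd, zero_smul]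
        rw [e1, e2, ← Finset.sum_add_distrib]
        exact Finset.sum_congr rfl fun d _ => by rw [add_smul]
    | smul b y _ hy =>
      obtain ⟨l, a, h1, h2, h3, rfl⟩ := hy
      refine ⟨l, fun d => (b : ℝ) * a d, h1, fun d => mul_nonneg b.2 (h2 d), fun d hd => ?_, ?_⟩
      · show (b : ℝ) * a d = 0
        rw [h3 d hd, mul_zero]
      · have e : b • ∑ d ∈ l, a d • intVec d = (b : ℝ) • ∑ d ∈ l, a d • intVec d := rfl
        rw [e, Finset.smul_sum]
        exact Finset.sum_congr rfl fun d _ => by rw [mul_smul]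
  obtain ⟨l, a, h1, h2, _, h4⟩ := key
  refine ⟨l.filter (fun d => 0 < a d), a, fun d hd => ?_, ?_⟩
  · obtain ⟨h5, h6⟩ := Finset.mem_filter.1 hd
    exact ⟨h6, hsub d (h1 d h5)⟩
  · rw [h4, Finset.sum_filter]
    refine Finset.sum_congr rfl fun d _ => ?_
    split_ifs with h
    · rfl
    · rw [le_antisymm (not_lt.1 h) (h2 d), zero_smul]

/-- If ample classes converging to a nef effective class along an ample direction are infinitely
often in the translates of a rational polyhedral cone, so is the limit. -/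
theorem cover_limit
    (Nef Eff : PointedCone ℝ (Fin n → ℝ)) (D : Set (Fin n → ℤ))
    (hNef : IsClosed (Nef : Set (Fin n → ℝ)))
    (hEff : Eff = PointedCone.hull ℝ (intVec '' D))
    (hNE : ∀ x ∈ Nef, x ∈ Eff.closure)
    (G : Subgroup (GL (Fin n) ℤ)) (hGNef : ∀ g ∈ G, ∀ x ∈ Nef, act g.val x ∈ Nef)
    (hGEff : ∀ g ∈ G, ∀ x ∈ Eff, act g.val x ∈ Eff)
    {q : Fin n → ℚ} {c : ℝ} (hc : 0 < c) (hq : ∀ x ∈ Eff.closure, c * ‖x‖ ≤ ratVec q ⬝ᵥ x)
    (S : Finset (Fin n → ℚ)) (hS : ∀ s ∈ S, ratVec s ∈ Nef)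
    (v A : Fin n → ℝ) (hvN : v ∈ Nef) (hvE : v ∈ Eff) (hA : A ∈ interior (Nef : Set (Fin n → ℝ)))
    (hfreq : ∃ᶠ m : ℕ in atTop, ∃ g ∈ G, ∃ y ∈ rcone S,
      act g.val y = v + ((m : ℝ) + 1)⁻¹ • A) :
    ∃ g ∈ G, ∃ y ∈ rcone S, act g.val y = v := by
  classical
  have hqN : ∀ x ∈ Nef, c * ‖x‖ ≤ ratVec q ⬝ᵥ x := fun x hx => hq x (hNE x hx)
  have hEE : ∀ x ∈ Eff, x ∈ Eff.closure := fun x hx => subset_closure hx
  have hqnn : ∀ x ∈ Eff, 0 ≤ ratVec q ⬝ᵥ x := fun x hx =>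
    (mul_nonneg hc.le (norm_nonneg _)).trans (hq _ (hEE _ hx))
  have hqnnN : ∀ x ∈ Nef, 0 ≤ ratVec q ⬝ᵥ x := fun x hx =>
    (mul_nonneg hc.le (norm_nonneg _)).trans (hqN _ hx)
  have hAN : A ∈ Nef := interior_subset hA
  have hpos : ∀ m : ℕ, (0 : ℝ) < ((m : ℝ) + 1)⁻¹ := fun m => by positivity
  have hle1 : ∀ m : ℕ, ((m : ℝ) + 1)⁻¹ ≤ 1 := fun m => by
    have : (1 : ℝ) ≤ (m : ℝ) + 1 := by
      have : (0 : ℝ) ≤ m := Nat.cast_nonneg m
      linarith
    exact inv_le_one_of_one_le₀ this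
  set x : ℕ → (Fin n → ℝ) := fun m => v + ((m : ℝ) + 1)⁻¹ • A with hx
  have hxint : ∀ m, x m ∈ interior (Nef : Set (Fin n → ℝ)) := by
    intro m
    rw [hx]
    simp only
    rw [add_comm]
    exact int_add (int_smul (hpos m) hA) hvN
  -- bound for the values
  set M : ℝ := ratVec q ⬝ᵥ v + ratVec q ⬝ᵥ A with hM
  have hxM : ∀ m, ratVec q ⬝ᵥ x m ≤ M := by
    intro m
    rw [hx]
    simp only
    rw [dotProduct_add, dotProduct_smul, smul_eq_mul, hM]
    have := mul_le_mul_of_nonneg_right (hle1 m) (hqnnN A hAN)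
    linarith
  -- finitely many translates of `v` of bounded value
  obtain ⟨l, a, hl, hvl⟩ := exists_rep hEff hvE
  set V : Set (Fin n → ℝ) := {w | (∃ k ∈ G, act k.val v = w) ∧ ratVec q ⬝ᵥ w ≤ M} with hV
  have hVfin : V.Finite := by
    obtain ⟨B, hB⟩ : ∃ B : ℕ, ∀ d ∈ l, M / (a d * c) ≤ B := by
      have : ∀ d ∈ l, ∃ B : ℕ, M / (a d * c) ≤ B := fun d _ => exists_nat_ge _
      choose! b hb using this
      exact ⟨l.sup b, fun d hd => (hb d hd).trans (by exact_mod_cast Finset.le_sup hd)⟩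
    have hfin : (Set.Icc (fun (_ : Fin n) => (-(B : ℤ))) (fun _ => (B : ℤ)) :
      Set (Fin n → ℤ)).Finite := Set.finite_Icc _ _
    have hfin2 : (Set.pi Set.univ (fun _ : {d // d ∈ l} =>
      (Set.Icc (fun (_ : Fin n) => (-(B : ℤ))) (fun _ => (B : ℤ)) : Set (Fin n → ℤ)))).Finite :=
      Set.Finite.pi fun _ => hfin
    refine (hfin2.image (fun e : {d // d ∈ l} → (Fin n → ℤ) =>
      ∑ d : {d // d ∈ l}, a d.1 • intVec (e d))).subset ?_
    rintro w ⟨⟨k, hk, rfl⟩, hw⟩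
    refine ⟨fun d => k.val.mulVec d.1, fun d _ => ?_, ?_⟩
    · -- bound of the integral vector
      have h1 : act k.val (intVec d.1) = intVec (k.val.mulVec d.1) := act_intVec _ _
      have h2 : a d.1 * (ratVec q ⬝ᵥ act k.val (intVec d.1)) ≤ M := by
        refine le_trans ?_ hw
        rw [hvl, map_sum, dotProduct_sum]
        have h3 : ∀ d' ∈ l, 0 ≤ ratVec q ⬝ᵥ act k.val (a d' • intVec d') := by
          intro d' hd'
          refine hqnn _ (hGEff k hk _ (PointedCone.smul_mem _ (hl d' hd').1.le (hl d' hd').2))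
        have h4 := Finset.single_le_sum (f := fun d' => ratVec q ⬝ᵥ act k.val (a d' • intVec d'))
          h3 d.2
        refine le_trans (le_of_eq ?_) h4
        simp only [map_smul, dotProduct_smul, smul_eq_mul]
      have h5 := hq _ (hEE _ (hGEff k hk _ (hl d.1 d.2).2))
      have had := (hl d.1 d.2).1
      have h6 : ‖intVec (k.val.mulVec d.1)‖ ≤ B := by
        rw [← h1]
        refine le_trans ?_ (hB d.1 d.2)
        rw [le_div_iff₀ (mul_pos had hc)]
        nlinarith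
      constructor
      · intro i
        have h7 := (norm_le_pi_norm (intVec (k.val.mulVec d.1)) i).trans h6
        have h8 : ‖intVec (k.val.mulVec d.1) i‖ = |((k.val.mulVec d.1) i : ℝ)| := rfl
        rw [h8] at h7
        have := (abs_le.1 h7).1
        show -(B : ℤ) ≤ (k.val.mulVec d.1) i
        exact_mod_cast this
      · intro i
        have h7 := (norm_le_pi_norm (intVec (k.val.mulVec d.1)) i).trans h6
        have h8 : ‖intVec (k.val.mulVec d.1) i‖ = |((k.val.mulVec d.1) i : ℝ)| := rfl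
        rw [h8] at h7
        have := (abs_le.1 h7).2
        show (k.val.mulVec d.1) i ≤ (B : ℤ)
        exact_mod_cast this
    · show ∑ d : {d // d ∈ l}, a d.1 • intVec (k.val.mulVec d.1) = act k.val v
      rw [hvl, map_sum, ← Finset.sum_coe_sort l]
      refine Finset.sum_congr rfl fun d _ => ?_
      rw [map_smul, act_intVec]
  have hTfin := minSet_finite hc hqN hGNef S hS
  -- the property of a pair
  let Q : (Fin n → ℝ) → GL (Fin n) ℤ → ℕ → Prop := fun w γ m =>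
    ∃ k ∈ G, act k.val v = w ∧ (∃ y ∈ rcone S, act k.val (x m) = act γ.val y) ∧
      ∀ δ ∈ G, ratVec q ⬝ᵥ act k.val (x m) ≤ ratVec q ⬝ᵥ act δ.val (x m)
  have hfreq2 : ∃ᶠ m : ℕ in atTop, ∃ p ∈ V ×ˢ (minSet Nef q G S), Q p.1 p.2 m := by
    refine hfreq.mono ?_
    rintro m ⟨g, hg, y, hy, hyx⟩
    have hyx' : act g.val y = x m := hyx
    have hyint : y ∈ interior (Nef : Set (Fin n → ℝ)) := by
      have h1 := int_act hGNef (G.inv_mem hg) (hxint m)
      rw [← hyx', act_val_inv] at h1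
      exact h1
    obtain ⟨γ, hγ, hmin⟩ := exists_min hc hqN hGNef hyint
    have hk : γ * g⁻¹ ∈ G := G.mul_mem hγ (G.inv_mem hg)
    have hkx : act (γ * g⁻¹ : GL (Fin n) ℤ).val (x m) = act γ.val y := by
      rw [Units.val_mul, act_mul_apply, ← hyx', act_val_inv]
    have hmin' : ∀ δ ∈ G, ratVec q ⬝ᵥ act (γ * g⁻¹ : GL (Fin n) ℤ).val (x m) ≤
        ratVec q ⬝ᵥ act δ.val (x m) := by
      intro δ hδ
      rw [hkx]
      have h1 := hmin (δ * g) (G.mul_mem hδ hg)
      rwa [Units.val_mul, act_mul_apply, hyx'] at h1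
    refine ⟨(act (γ * g⁻¹ : GL (Fin n) ℤ).val v, γ), ⟨⟨⟨_, hk, rfl⟩, ?_⟩, hγ, y, hy, hyint, hmin⟩,
      γ * g⁻¹, hk, rfl, ⟨y, hy, hkx⟩, hmin'⟩
    -- bounded value
    have h1 := hmin' 1 G.one_mem
    rw [Units.val_one, act_one, LinearMap.id_apply] at h1
    have h2 := h1.trans (hxM m)
    refine le_trans ?_ h2
    rw [hx]
    simp only
    rw [map_add, map_smul, dotProduct_add, dotProduct_smul, smul_eq_mul]
    have := mul_nonneg (hpos m).le (hqnnN _ (hGNef _ hk A hAN))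
    linarith
  obtain ⟨p, hp, hpfreq⟩ : ∃ p ∈ V ×ˢ (minSet Nef q G S), ∃ᶠ m : ℕ in atTop, Q p.1 p.2 m := by
    by_contra hcon
    push Not at hcon
    have h2 := (eventually_all_finite (hVfin.prod hTfin)).2 hcon
    obtain ⟨m, ⟨p, hp, hQ⟩, hm⟩ := (hfreq2.and_eventually h2).exists
    exact hm p hp hQ
  obtain ⟨w, γ⟩ := p
  obtain ⟨hwV, hγT⟩ := hp
  obtain ⟨m₁, k₁, hk₁, hk₁v, _, _⟩ := hpfreq.exists
  have hγG : γ ∈ G := hγT.1
  have hclosed : IsClosed {z : Fin n → ℝ |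
      act (γ⁻¹ : GL (Fin n) ℤ).val z ∈ (rcone S : Set (Fin n → ℝ))} :=
    (isClosed_rcone hc hqN hNef S hS).preimage (act_continuous _)
  have hwmem : w ∈ {z : Fin n → ℝ |
      act (γ⁻¹ : GL (Fin n) ℤ).val z ∈ (rcone S : Set (Fin n → ℝ))} := by
    rw [← hclosed.closure_eq]
    rw [Metric.mem_closure_iff]
    intro ε hε
    have hlim : Tendsto (fun m : ℕ => ((m : ℝ) + 1)⁻¹ * (ratVec q ⬝ᵥ act k₁.val A) / c) atTop
        (𝓝 (0 * (ratVec q ⬝ᵥ act k₁.val A) / c)) := by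
      have h2 : Tendsto (fun k : ℕ => ((k : ℝ) + 1)⁻¹) atTop (𝓝 0) := by
        have := tendsto_one_div_add_atTop_nhds_zero_nat (𝕜 := ℝ)
        simpa [one_div] using this
      exact (h2.mul_const _).div_const _
    rw [zero_mul, zero_div] at hlim
    obtain ⟨m, ⟨k, hk, hkv, ⟨y, hy, hky⟩, hmin⟩, hmε⟩ :=
      (hpfreq.and_eventually (hlim.eventually (gt_mem_nhds hε))).exists
    refine ⟨act k.val (x m), ?_, ?_⟩
    · show act (γ⁻¹ : GL (Fin n) ℤ).val (act k.val (x m)) ∈ rcone S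
      rw [hky, act_val_inv]; exact hy
    · have e1 : act k.val (x m) = w + ((m : ℝ) + 1)⁻¹ • act k.val A := by
        rw [hx]
        simp only
        rw [map_add, map_smul, hkv]
      have e2 : act k₁.val (x m) = w + ((m : ℝ) + 1)⁻¹ • act k₁.val A := by
        rw [hx]
        simp only
        rw [map_add, map_smul, hk₁v]
      have h1 := hmin k₁ hk₁
      rw [e1, e2, dotProduct_add, dotProduct_add, dotProduct_smul, dotProduct_smul, smul_eq_mul,
        smul_eq_mul] at h1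
      have h2 := hqN _ (hGNef k hk A hAN)
      have h3 : ‖((m : ℝ) + 1)⁻¹ • act k.val A‖ = ((m : ℝ) + 1)⁻¹ * ‖act k.val A‖ := by
        rw [norm_smul, Real.norm_of_nonneg (hpos m).le]
      rw [e1, dist_eq_norm]
      have h4 : w - (w + ((m : ℝ) + 1)⁻¹ • act k.val A) = -(((m : ℝ) + 1)⁻¹ • act k.val A) := by
        abel
      rw [h4, norm_neg, h3]
      refine lt_of_le_of_lt ?_ hmε
      rw [le_div_iff₀ hc]
      have h5 := mul_le_mul_of_nonneg_left h2 (hpos m).le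
      nlinarith
  obtain ⟨⟨k, hk, hkw⟩, _⟩ := hwV
  have hkw' : act k.val v = w := hkw
  refine ⟨k⁻¹ * γ, G.mul_mem (G.inv_mem hk) hγG, act (γ⁻¹ : GL (Fin n) ℤ).val w, hwmem, ?_⟩
  rw [Units.val_mul, act_mul_apply, act_inv_val, ← hkw', act_val_inv]

/-- a rational polyhedral neighbourhood of a nef and big class inside the nef cone -/
lemma exists_local_cone (Nef Eff : PointedCone ℝ (Fin n → ℝ)) {q : Fin n → ℚ}
    (hLP : LocallyRationalPolyhedral (Nef : Set (Fin n → ℝ)) (interior (Eff : Set (Fin n → ℝ))))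
    (k : Fin n → ℝ) (hkN : k ∈ Nef) (hkE : k ∈ interior (Eff : Set (Fin n → ℝ)))
    (hqk : 0 < ratVec q ⬝ᵥ k) :
    ∃ S : Finset (Fin n → ℚ),
      (∀ y ∈ rcone S, y = 0 ∨ (y ∈ Nef ∧ y ∈ interior (Eff : Set (Fin n → ℝ)))) ∧
      ∀ᶠ y in 𝓝 k, y ∈ Nef → y ∈ rcone S := by
  classical
  obtain ⟨L, hL⟩ := hLP k ⟨hkN, hkE⟩
  have hV := hL.and (isOpen_interior.mem_nhds hkE)
  obtain ⟨r, hr, hball⟩ := Metric.nhds_basis_closedBall.mem_iff.1 hV
  set Q : ℝ := ratVec q ⬝ᵥ k with hQ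
  obtain ⟨η, hη1, hη2⟩ := exists_rat_btwn (show (0 : ℝ) < r / (2 * Q) by positivity)
  have hρ : ∀ i, ∃ ρ : ℚ, |(ρ : ℝ) - k i / Q| < η := by
    intro i
    obtain ⟨ρ, h1, h2⟩ := exists_rat_btwn (show k i / Q - η < k i / Q + η by linarith)
    exact ⟨ρ, by rw [abs_lt]; constructor <;> linarith⟩
  choose ρ hρ using hρ
  -- the inequalities
  set f : Fin n → (Fin n → ℚ) := fun i => (η + ρ i) • q - Pi.single i 1 with hf
  set f' : Fin n → (Fin n → ℚ) := fun i => (η - ρ i) • q + Pi.single i 1 with hf'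
  have hfx : ∀ i (y : Fin n → ℝ), ratVec (f i) ⬝ᵥ y = (η + ρ i) * (ratVec q ⬝ᵥ y) - y i := by
    intro i y
    rw [hf]
    simp only
    rw [ratVec_sub, ratVec_smul, sub_dotProduct, smul_dotProduct, smul_eq_mul]
    have : ratVec (Pi.single i (1 : ℚ)) ⬝ᵥ y = y i := by
      have h : ratVec (Pi.single i (1 : ℚ)) = Pi.single i (1 : ℝ) := by
        funext j
        by_cases hj : j = i
        · subst hj; simp [ratVec]
        · simp [ratVec, hj]
      rw [h, single_dotProduct, one_mul]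
    rw [this]; push_cast; ring
  have hfx' : ∀ i (y : Fin n → ℝ), ratVec (f' i) ⬝ᵥ y = (η - ρ i) * (ratVec q ⬝ᵥ y) + y i := by
    intro i y
    rw [hf']
    simp only
    rw [ratVec_add, ratVec_smul, add_dotProduct, smul_dotProduct, smul_eq_mul]
    have : ratVec (Pi.single i (1 : ℚ)) ⬝ᵥ y = y i := by
      have h : ratVec (Pi.single i (1 : ℚ)) = Pi.single i (1 : ℝ) := by
        funext j
        by_cases hj : j = i
        · subst hj; simp [ratVec]
        · simp [ratVec, hj]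
      rw [h, single_dotProduct, one_mul]
    rw [this]; push_cast; ring
  obtain ⟨S, hS⟩ := minkowski_weyl (q :: (Finset.univ.toList.map f ++ Finset.univ.toList.map f' ++
    L.toList))
  have hmemS : ∀ y, y ∈ rcone S ↔ 0 ≤ ratVec q ⬝ᵥ y ∧
      (∀ i, |y i - ρ i * (ratVec q ⬝ᵥ y)| ≤ η * (ratVec q ⬝ᵥ y)) ∧
      ∀ l ∈ L, 0 ≤ ratVec l ⬝ᵥ y := by
    intro y
    show y ∈ PointedCone.hull ℝ _ ↔ _
    rw [hS y]
    constructor
    · intro h
      refine ⟨h q (by simp), fun i => ?_, fun l hl => h l (by simp [hl])⟩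
      have h1 := h (f i) (by
        simp only [List.mem_cons, List.mem_append, List.mem_map, Finset.mem_toList,
          Finset.mem_univ, true_and]
        exact Or.inr (Or.inl (Or.inl ⟨i, rfl⟩)))
      have h2 := h (f' i) (by
        simp only [List.mem_cons, List.mem_append, List.mem_map, Finset.mem_toList,
          Finset.mem_univ, true_and]
        exact Or.inr (Or.inl (Or.inr ⟨i, rfl⟩)))
      rw [hfx] at h1
      rw [hfx'] at h2
      rw [abs_le]
      constructor <;> nlinarith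
    · rintro ⟨h1, h2, h3⟩ w hw
      simp only [List.mem_cons, List.mem_append, List.mem_map, Finset.mem_toList,
          Finset.mem_univ, true_and] at hw
      rcases hw with rfl | (⟨i, rfl⟩ | ⟨i, rfl⟩) | hw
      · exact h1
      · rw [hfx]
        have := (abs_le.1 (h2 i)).2
        nlinarith
      · rw [hfx']
        have := (abs_le.1 (h2 i)).1
        nlinarith
      · exact h3 w hw
  have hscale : ∀ y, 0 < ratVec q ⬝ᵥ y →
      (∀ i, |y i - ρ i * (ratVec q ⬝ᵥ y)| ≤ η * (ratVec q ⬝ᵥ y)) →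
      (Q / (ratVec q ⬝ᵥ y)) • y ∈ Metric.closedBall k r := by
    intro y hy h
    rw [mem_closedBall_iff_norm, pi_norm_le_iff_of_nonneg hr.le]
    intro i
    rw [Pi.sub_apply, Pi.smul_apply, smul_eq_mul, Real.norm_eq_abs]
    set u := ratVec q ⬝ᵥ y with hu
    have h1 : Q / u * y i - k i = (Q / u) * (y i - ρ i * u) + Q * ((ρ i : ℝ) - k i / Q) := by
      field_simp
      ring
    rw [h1]
    have h2 : |(Q / u) * (y i - ρ i * u)| ≤ Q * η := by
      rw [abs_mul, abs_of_pos (div_pos hqk hy)]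
      calc Q / u * |y i - ρ i * u| ≤ Q / u * (η * u) :=
            mul_le_mul_of_nonneg_left (h i) (div_pos hqk hy).le
        _ = Q * η := by field_simp
    have h3 : |Q * ((ρ i : ℝ) - k i / Q)| ≤ Q * η := by
      rw [abs_mul, abs_of_pos hqk]
      exact mul_le_mul_of_nonneg_left (hρ i).le hqk.le
    have h4 : 2 * Q * η < r := by
      rw [lt_div_iff₀ (by positivity)] at hη2
      linarith
    have h5 := abs_add_le ((Q / u) * (y i - ρ i * u)) (Q * ((ρ i : ℝ) - k i / Q))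
    linarith
  refine ⟨S, fun y hy => ?_, ?_⟩
  · obtain ⟨h1, h2, h3⟩ := (hmemS y).1 hy
    rcases eq_or_lt_of_le h1 with h0 | hpos
    · left
      funext i
      have := h2 i
      rw [← h0, mul_zero, mul_zero, sub_zero] at this
      exact abs_eq_zero.1 (le_antisymm this (abs_nonneg _))
    · right
      have hb := hball (hscale y hpos h2)
      have hsc : 0 < Q / (ratVec q ⬝ᵥ y) := div_pos hqk hpos
      have e : (Q / (ratVec q ⬝ᵥ y))⁻¹ • ((Q / (ratVec q ⬝ᵥ y)) • y) = y := by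
        rw [smul_smul, inv_mul_cancel₀ hsc.ne', one_smul]
      constructor
      · have h5 : (Q / (ratVec q ⬝ᵥ y)) • y ∈ (Nef : Set (Fin n → ℝ)) := by
          refine hb.1.2 fun l hl => ?_
          rw [dotProduct_smul, smul_eq_mul]
          exact mul_nonneg hsc.le (h3 l hl)
        have h6 := PointedCone.smul_mem Nef (inv_nonneg.2 hsc.le) h5
        rwa [e] at h6
      · have h6 := int_smul (inv_pos.2 hsc) hb.2
        rwa [e] at h6
  · -- nearby nef classes are in the cone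
    have hcont : Continuous (fun y : Fin n → ℝ => ratVec q ⬝ᵥ y) := continuous_dot _
    have e1 : ∀ᶠ y in 𝓝 k, 0 < ratVec q ⬝ᵥ y :=
      (hcont.tendsto k).eventually (lt_mem_nhds hqk)
    have e2 : ∀ i, ∀ᶠ y in 𝓝 k, |y i - ρ i * (ratVec q ⬝ᵥ y)| < η * (ratVec q ⬝ᵥ y) := by
      intro i
      have hc1 : Continuous (fun y : Fin n → ℝ => |y i - ρ i * (ratVec q ⬝ᵥ y)|) := by
        fun_prop
      have hc2 : Continuous (fun y : Fin n → ℝ => (η : ℝ) * (ratVec q ⬝ᵥ y)) := by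
        fun_prop
      have : |k i - ρ i * Q| < η * Q := by
        have h1 : k i - ρ i * Q = -(Q * ((ρ i : ℝ) - k i / Q)) := by
          field_simp
          ring
        rw [h1, abs_neg, abs_mul, abs_of_pos hqk, mul_comm (η : ℝ)]
        exact mul_lt_mul_of_pos_left (hρ i) hqk
      exact hc1.continuousAt.eventually_lt hc2.continuousAt this
    have e3 : ∀ᶠ y in 𝓝 k, ∀ i, |y i - ρ i * (ratVec q ⬝ᵥ y)| < η * (ratVec q ⬝ᵥ y) :=
      eventually_all.2 e2
    filter_upwards [e1, e3, hL] with y h1 h2 h3 hyN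
    exact (hmemS y).2 ⟨h1.le, fun i => (h2 i).le, h3.1 hyN⟩

theorem criterion_main (hn : 0 < n)
    (Nef Eff : PointedCone ℝ (Fin n → ℝ)) (D : Set (Fin n → ℤ))
    (hNef : IsClosed (Nef : Set (Fin n → ℝ)))
    (hample : (interior (Nef : Set (Fin n → ℝ))).Nonempty)
    (hEff : Eff = PointedCone.hull ℝ (intVec '' D))
    (hampleEff : interior (Nef : Set (Fin n → ℝ)) ⊆ (Eff : Set (Fin n → ℝ)))
    (hsal : ∀ x, x ∈ closure (Eff : Set (Fin n → ℝ)) → -x ∈ closure (Eff : Set (Fin n → ℝ)) →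
      x = 0)
    (hLP : LocallyRationalPolyhedral (Nef : Set (Fin n → ℝ)) (interior (Eff : Set (Fin n → ℝ))))
    (G : Subgroup (GL (Fin n) ℤ)) (hGNef : Preserves G Nef) (hGEff : Preserves G Eff)
    (K : Set (Fin n → ℝ)) (hKc : IsCompact K)
    (hKsub : K ⊆ (Nef : Set (Fin n → ℝ)) ∩ interior (Eff : Set (Fin n → ℝ)))
    (S : Finset (Fin n → ℚ)) (hS : cone S ⊆ (Nef : Set (Fin n → ℝ)) ∩ Eff)
    (hK : ∀ x ∈ interior (Nef : Set (Fin n → ℝ)),
      ∃ g ∈ G, (∃ t : ℝ, 0 < t ∧ act g.val (t • x) ∈ K) ∨ act g.val x ∈ cone S) :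
    (∃ S' : Finset (Fin n → ℚ), Covers G S' ((Nef : Set (Fin n → ℝ)) ∩ Eff) ∧ Exact G S') ∧
      (Nef : Set (Fin n → ℝ)) ∩ Eff ⊆
        interior (Eff : Set (Fin n → ℝ)) ∪ ⋃ g ∈ G, act g.val '' cone S := by
  classical
  have hNE : ∀ x ∈ Nef, x ∈ closure (Eff : Set (Fin n → ℝ)) := by
    intro x hx
    have h1 : closure (interior (Nef : Set (Fin n → ℝ))) = closure (Nef : Set (Fin n → ℝ)) :=
      (PointedCone.convex Nef).closure_interior_eq_closure_of_nonempty_interior hample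
    have h2 : x ∈ closure (interior (Nef : Set (Fin n → ℝ))) := by
      rw [h1]; exact subset_closure hx
    exact closure_mono (fun y hy => hampleEff hy) h2
  have hsalN : ∀ x, x ∈ Nef → -x ∈ Nef → x = 0 := fun x h1 h2 => hsal x (hNE x h1) (hNE _ h2)
  obtain ⟨q, c, hc, hq⟩ := exists_pos_rat Eff.closure isClosed_closure hsal
  have hqN : ∀ x ∈ Nef, c * ‖x‖ ≤ ratVec q ⬝ᵥ x := fun x hx => hq x (hNE x hx)
  have hqpos : ∀ x ∈ Nef, x ≠ 0 → 0 < ratVec q ⬝ᵥ x := fun x hx h0 =>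
    lt_of_lt_of_le (mul_pos hc (norm_pos_iff.2 h0)) (hqN x hx)
  have h0 := zero_not_mem_interior hn Eff hsal
  obtain ⟨A, hA⟩ := hample
  have hpos : ∀ m : ℕ, (0 : ℝ) < ((m : ℝ) + 1)⁻¹ := fun m => by positivity
  have hloc : ∀ k : K, ∃ S : Finset (Fin n → ℚ),
      (∀ y ∈ rcone S, y = 0 ∨ (y ∈ Nef ∧ y ∈ interior (Eff : Set (Fin n → ℝ)))) ∧
      ∀ᶠ y in 𝓝 k.1, y ∈ Nef → y ∈ rcone S := fun k =>
    exists_local_cone Nef Eff hLP k.1 (hKsub k.2).1 (hKsub k.2).2
      (hqpos _ (hKsub k.2).1 (fun h => h0 (h ▸ (hKsub k.2).2)))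
  choose SK hS1 hS2 using hloc
  obtain ⟨F, hF⟩ := hKc.elim_nhds_subcover' (fun k hk => {y | y ∈ Nef → y ∈ rcone (SK ⟨k, hk⟩)})
    (fun k hk => hS2 ⟨k, hk⟩)
  set S₀ : Finset (Fin n → ℚ) := F.biUnion SK ∪ S with hS₀
  have hSmem : ∀ y ∈ rcone S, y ∈ Nef ∧ y ∈ Eff := fun y hy => hS hy
  have hS₀NE : ∀ s ∈ S₀, ratVec s ∈ Nef ∧ ratVec s ∈ Eff := by
    intro s hs
    rcases Finset.mem_union.1 hs with hs | hs
    · obtain ⟨k, hk, hs⟩ := Finset.mem_biUnion.1 hs
      rcases hS1 k _ (mem_rcone hs) with h | h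
      · rw [h]; exact ⟨Submodule.zero_mem _, Submodule.zero_mem _⟩
      · exact ⟨h.1, interior_subset h.2⟩
    · exact hSmem _ (mem_rcone hs)
  have hS₀N : ∀ s ∈ S₀, ratVec s ∈ Nef := fun s hs => (hS₀NE s hs).1
  have hS₀E : ∀ s ∈ S₀, ratVec s ∈ Eff := fun s hs => (hS₀NE s hs).2
  have hcovint : ∀ x ∈ interior (Nef : Set (Fin n → ℝ)), ∃ γ ∈ G, ∃ y ∈ rcone S₀,
      act γ.val y = x := by
    intro x hx
    obtain ⟨g, hg, h⟩ := hK x hx
    rcases h with ⟨t, ht, hgK⟩ | h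
    · obtain ⟨k, hk, hy⟩ := Set.mem_iUnion₂.1 (hF hgK)
      have h1 : act g.val (t • x) ∈ rcone (SK k) := hy (hKsub hgK).1
      have h2 : act g.val (t • x) ∈ rcone S₀ :=
        rcone_mono (fun s hs => Finset.mem_union_left _ (Finset.mem_biUnion.2 ⟨k, hk, hs⟩)) h1
      refine ⟨g⁻¹, G.inv_mem hg, t⁻¹ • act g.val (t • x),
        PointedCone.smul_mem _ (inv_nonneg.2 ht.le) h2, ?_⟩
      rw [map_smul, act_val_inv, smul_smul, inv_mul_cancel₀ ht.ne', one_smul]
    · exact ⟨g⁻¹, G.inv_mem hg, act g.val x, rcone_mono Finset.subset_union_right h,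
        act_val_inv _ _⟩
  -- everything nef and effective is covered
  have hall : ∀ v ∈ Nef, v ∈ Eff → ∃ γ ∈ G, ∃ y ∈ rcone S₀, act γ.val y = v := by
    intro v hvN hvE
    refine cover_limit Nef Eff D hNef hEff hNE G hGNef hGEff hc hq S₀ hS₀N v A hvN hvE hA
      (Eventually.frequently (Eventually.of_forall fun m => hcovint _ ?_))
    rw [add_comm]
    exact int_add (int_smul (hpos m) hA) hvN
  have hample' : (interior (Nef : Set (Fin n → ℝ))).Nonempty := ⟨A, hA⟩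
  refine ⟨?_, ?_⟩
  · obtain ⟨S', hS'N, hS'cov, hS'dis⟩ := exact_domain Nef hNef hsalN hample' G hGNef S₀ hS₀N hcovint
    refine ⟨S', ?_, fun g hg hg1 => (hS'dis g hg hg1).inter_eq⟩
    apply Set.Subset.antisymm
    · rintro v ⟨hv1, hv2⟩
      obtain ⟨γ, hγ, y, hy, hyv⟩ := hall v hv1 hv2
      obtain ⟨γ', hγ', y', hy', hyy⟩ := cover_rational hc hqN hNef hample' hGNef S' hS'N hS'cov
        S₀ hS₀N y hy
      refine Set.mem_iUnion₂.2 ⟨γ * γ', G.mul_mem hγ hγ', y', hy', ?_⟩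
      rw [Units.val_mul, act_mul_apply, hyy, hyv]
    · intro v hv
      obtain ⟨γ, hγ, y, hy, rfl⟩ := Set.mem_iUnion₂.1 hv
      obtain ⟨γ', hγ', y', hy', rfl⟩ := cover_rational hc hqN hNef hample' hGNef S₀ hS₀N hcovint
          S' hS'N y hy
      have h1 : y' ∈ Nef := rcone_le hS₀N y' hy'
      have h2 : y' ∈ Eff := rcone_le hS₀E y' hy'
      exact ⟨hGNef γ hγ _ (hGNef γ' hγ' _ h1), hGEff γ hγ _ (hGEff γ' hγ' _ h2)⟩
  · rintro v ⟨hvN, hvE⟩
    by_cases hv0 : v = 0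
    · right
      refine Set.mem_iUnion₂.2 ⟨1, G.one_mem, 0, Submodule.zero_mem _, ?_⟩
      rw [hv0]; simp
    by_cases hvB : v ∈ interior (Eff : Set (Fin n → ℝ))
    · left; exact hvB
    right
    have hxint : ∀ m : ℕ, v + ((m : ℝ) + 1)⁻¹ • A ∈ interior (Nef : Set (Fin n → ℝ)) := by
      intro m
      rw [add_comm]
      exact int_add (int_smul (hpos m) hA) hvN
    have hnot : ¬ ∃ᶠ m : ℕ in atTop, ∃ g ∈ G, ∃ t : ℝ, 0 < t ∧
        act g.val (t • (v + ((m : ℝ) + 1)⁻¹ • A)) ∈ K := by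
      intro hfreq
      obtain ⟨φ, hφ, hφK⟩ := Filter.extraction_of_frequently_atTop hfreq
      apply hvB
      have hlim : Tendsto (fun m : ℕ => v + ((m : ℝ) + 1)⁻¹ • A) atTop (𝓝 v) := by
        have h2 : Tendsto (fun k : ℕ => ((k : ℝ) + 1)⁻¹) atTop (𝓝 0) := by
          have := tendsto_one_div_add_atTop_nhds_zero_nat (𝕜 := ℝ)
          simpa [one_div] using this
        have h3 : Tendsto (fun m : ℕ => v + ((m : ℝ) + 1)⁻¹ • A) atTop (𝓝 (v + (0 : ℝ) • A)) :=
          tendsto_const_nhds.add (h2.smul_const _)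
        rwa [zero_smul, add_zero] at h3
      refine big_of_limit hn Eff D hEff hsal G hGEff hc hq K hKc (fun k hk => (hKsub hk).2) v hvE
        hv0 (fun m => v + ((φ m : ℝ) + 1)⁻¹ • A) (fun m => hampleEff (hxint _)) (fun m => ?_)
        (hlim.comp hφ.tendsto_atTop) hφK
      rw [add_sub_cancel_left]
      exact PointedCone.smul_mem _ (hpos _).le (hampleEff hA)
    rw [Filter.not_frequently] at hnot
    obtain ⟨g, hg, y, hy, hyv⟩ := cover_limit Nef Eff D hNef hEff hNE G hGNef hGEff hc hq S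
      (fun s hs => (hSmem _ (mem_rcone hs)).1) v A hvN hvE hA (Eventually.frequently (by
        filter_upwards [hnot] with m hm
        obtain ⟨g, hg, h⟩ := hK _ (hxint m)
        rcases h with h | h
        · exact absurd ⟨g, hg, h⟩ hm
        · exact ⟨g⁻¹, G.inv_mem hg, _, h, act_val_inv _ _⟩))
    exact Set.mem_iUnion₂.2 ⟨g, hg, y, hy, hyv⟩

end Pool.Agent.H92Cone
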