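import Pool.Agent.H92Cone.Criterion

/-!
A criterion for the cone conjecture which only looks at ample classes.

`Fin n → ℝ` is the real Neron-Severi space with its lattice of integral vectors, `Nef` the nef
cone, `Eff` the cone spanned by the classes `D` of effective divisors (not closed up), whose
interior is the big cone, `G` the image of the automorphism group of the pair.
-/

namespace Pool.Agent.H92Cone.AmpleCriterionResult

open Pool.Agent.H93Cone Pool.Agent.H92Cone

theorem result {n : ℕ} (hn : 0 < n)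
    (Nef Eff : PointedCone ℝ (Fin n → ℝ)) (D : Set (Fin n → ℤ))
    (hNef : IsClosed (Nef : Set (Fin n → ℝ)))
    (hample : (interior (Nef : Set (Fin n → ℝ))).Nonempty)
    (hEff : Eff = PointedCone.hull ℝ (intVec '' D))
    (hampleEff : interior (Nef : Set (Fin n → ℝ)) ⊆ (Eff : Set (Fin n → ℝ)))
    (hsal : ∀ x, x ∈ closure (Eff : Set (Fin n → ℝ)) → -x ∈ closure (Eff : Set (Fin n → ℝ)) →
      x = 0)
    (hLP : LocallyRationalPolyhedral (Nef : Set (Fin n → ℝ)) (interior (Eff : Set (Fin n → ℝ))))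
    (G : Subgroup (GL (Fin n) ℤ)) (hGNef : Preserves G Nef) (hGEff : Preserves G Eff) :
    (∃ S' : Finset (Fin n → ℚ), Covers G S' ((Nef : Set (Fin n → ℝ)) ∩ Eff) ∧ Exact G S') ↔
      ∃ (K : Set (Fin n → ℝ)) (S : Finset (Fin n → ℚ)), IsCompact K ∧
        K ⊆ (Nef : Set (Fin n → ℝ)) ∩ interior (Eff : Set (Fin n → ℝ)) ∧
        cone S ⊆ (Nef : Set (Fin n → ℝ)) ∩ Eff ∧
        ∀ x ∈ interior (Nef : Set (Fin n → ℝ)),
          ∃ g ∈ G, (∃ t : ℝ, 0 < t ∧ act g.val (t • x) ∈ K) ∨ act g.val x ∈ cone S := by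
  constructor
  · rintro ⟨S', hcov, _⟩
    refine ⟨∅, S', isCompact_empty, Set.empty_subset _, fun y hy => ?_, fun x hx => ?_⟩
    · rw [hcov]
      exact Set.mem_iUnion₂.2 ⟨1, G.one_mem, y, hy, by simp⟩
    · have h : x ∈ (Nef : Set (Fin n → ℝ)) ∩ Eff := ⟨interior_subset hx, hampleEff hx⟩
      rw [hcov] at h
      obtain ⟨g, hg, y, hy, rfl⟩ := Set.mem_iUnion₂.1 h
      exact ⟨g⁻¹, G.inv_mem hg, Or.inr (by rw [act_val_inv]; exact hy)⟩
  · rintro ⟨K, S, hKc, hKsub, hS, hK⟩
    exact (criterion_main hn Nef Eff D hNef hample hEff hampleEff hsal hLP G hGNef hGEff K hKc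
      hKsub S hS hK).1

end Pool.Agent.H92Cone.AmpleCriterionResult
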