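import Pool.Agent.H93Cone.Domain2

/-!
Finiteness of the set of minimising group elements on a rational polyhedral cone, and
consequences (Siegel property, rational polyhedral cones are covered).
-/

namespace Pool.Agent.H92Cone

open Pool.Agent.H93Cone Finset Filter Topology

variable {n : ℕ}

/-- the cone generated by a finite set of rational vectors -/
abbrev rcone (S : Finset (Fin n → ℚ)) : PointedCone ℝ (Fin n → ℝ) :=
  PointedCone.hull ℝ (ratVec '' (S : Set (Fin n → ℚ)))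

lemma rcone_le {K : PointedCone ℝ (Fin n → ℝ)} {S : Finset (Fin n → ℚ)}
    (hS : ∀ s ∈ S, ratVec s ∈ K) : ∀ x ∈ rcone S, x ∈ K := by
  intro x hx
  have : rcone S ≤ K := by
    refine Submodule.span_le.2 ?_
    rintro _ ⟨s, hs, rfl⟩
    exact hS s hs
  exact this hx

lemma mem_rcone {S : Finset (Fin n → ℚ)} {s : Fin n → ℚ} (hs : s ∈ S) : ratVec s ∈ rcone S :=
  Submodule.subset_span ⟨s, hs, rfl⟩

lemma rcone_mono {S T : Finset (Fin n → ℚ)} (h : S ⊆ T) : rcone S ≤ rcone T :=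
  Submodule.span_mono (Set.image_mono (by exact_mod_cast h))

/-- intersection with finitely many half spaces -/
lemma rcone_inter (S : Finset (Fin n → ℚ)) (L : List (Fin n → ℚ)) :
    ∃ S' : Finset (Fin n → ℚ), ∀ x : Fin n → ℝ,
      x ∈ rcone S' ↔ x ∈ rcone S ∧ ∀ q ∈ L, 0 ≤ ratVec q ⬝ᵥ x := by
  induction L with
  | nil => exact ⟨S, fun x => by simp⟩
  | cons q L ih =>
    obtain ⟨S', hS'⟩ := ih
    obtain ⟨S'', hS''⟩ := mw_step S' q
    refine ⟨S'', fun x => ?_⟩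
    show x ∈ rcone S'' ↔ _
    rw [hS'' x]
    have := hS' x
    constructor
    · rintro ⟨h1, h2⟩
      obtain ⟨h3, h4⟩ := this.1 h1
      exact ⟨h3, by
        intro q' hq'
        rcases List.mem_cons.1 hq' with rfl | h
        · exact h2
        · exact h4 q' h⟩
    · rintro ⟨h1, h2⟩
      exact ⟨this.2 ⟨h1, fun q' hq' => h2 q' (List.mem_cons_of_mem _ hq')⟩,
        h2 q (List.mem_cons_self)⟩

section interior

lemma int_add {K : PointedCone ℝ (Fin n → ℝ)} {x y : Fin n → ℝ}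
    (hx : x ∈ interior (K : Set (Fin n → ℝ))) (hy : y ∈ K) :
    x + y ∈ interior (K : Set (Fin n → ℝ)) := by
  rw [mem_interior] at hx ⊢
  obtain ⟨U, hU, hUo, hxU⟩ := hx
  refine ⟨(fun z => z - y) ⁻¹' U, ?_, hUo.preimage (by fun_prop), by simpa using hxU⟩
  intro z hz
  have h1 : z - y ∈ K := hU hz
  have : z = (z - y) + y := by abel
  rw [this]
  exact K.add_mem h1 hy

lemma int_smul {K : PointedCone ℝ (Fin n → ℝ)} {x : Fin n → ℝ} {t : ℝ} (ht : 0 < t)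
    (hx : x ∈ interior (K : Set (Fin n → ℝ))) : t • x ∈ interior (K : Set (Fin n → ℝ)) := by
  rw [mem_interior] at hx ⊢
  obtain ⟨U, hU, hUo, hxU⟩ := hx
  refine ⟨(fun z => t⁻¹ • z) ⁻¹' U, ?_, hUo.preimage (by fun_prop), by
    show t⁻¹ • t • x ∈ U
    rw [smul_smul, inv_mul_cancel₀ ht.ne', one_smul]; exact hxU⟩
  intro z hz
  have h1 : t⁻¹ • z ∈ K := hU hz
  have : z = t • (t⁻¹ • z) := by rw [smul_smul, mul_inv_cancel₀ ht.ne', one_smul]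
  rw [this]
  exact PointedCone.smul_mem _ ht.le h1

lemma int_act {K : PointedCone ℝ (Fin n → ℝ)} {G : Subgroup (GL (Fin n) ℤ)}
    (hG : ∀ γ ∈ G, ∀ x ∈ K, act γ.val x ∈ K) {γ : GL (Fin n) ℤ} (hγ : γ ∈ G)
    {x : Fin n → ℝ} (hx : x ∈ interior (K : Set (Fin n → ℝ))) :
    act γ.val x ∈ interior (K : Set (Fin n → ℝ)) := by
  have hopen : IsOpen ((fun y => act (γ⁻¹ : GL (Fin n) ℤ).val y) ⁻¹'
      (interior (K : Set (Fin n → ℝ)))) :=
    isOpen_interior.preimage (act_continuous _)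
  refine mem_interior.2 ⟨_, ?_, hopen, ?_⟩
  · intro y hy
    have h1 : act (γ⁻¹ : GL (Fin n) ℤ).val y ∈ (K : Set (Fin n → ℝ)) := interior_subset hy
    have h2 : act γ.val (act (γ⁻¹ : GL (Fin n) ℤ).val y) ∈ K := hG γ hγ _ h1
    rw [act_inv_val] at h2
    exact h2
  · show act (γ⁻¹ : GL (Fin n) ℤ).val (act γ.val x) ∈ interior (K : Set (Fin n → ℝ))
    rw [act_val_inv]; exact hx

end interior

/-- finitely many group elements have bounded value at an interior point -/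
lemma finite_le {K : PointedCone ℝ (Fin n → ℝ)} {q : Fin n → ℚ} {c : ℝ} (hc : 0 < c)
    (hq : ∀ x ∈ K, c * ‖x‖ ≤ ratVec q ⬝ᵥ x)
    {G : Subgroup (GL (Fin n) ℤ)} (hG : ∀ γ ∈ G, ∀ x ∈ K, act γ.val x ∈ K)
    {a : Fin n → ℝ} (ha : a ∈ interior (K : Set (Fin n → ℝ))) (T : ℝ) :
    {γ : GL (Fin n) ℤ | γ ∈ G ∧ ratVec q ⬝ᵥ act γ.val a ≤ T}.Finite := by
  obtain ⟨ε, hε, hball⟩ : ∃ ε > 0, Metric.closedBall a ε ⊆ (K : Set (Fin n → ℝ)) := by
    obtain ⟨ε, hε, h⟩ := Metric.nhds_basis_closedBall.mem_iff.1 (isOpen_interior.mem_nhds ha)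
    exact ⟨ε, hε, h.trans interior_subset⟩
  refine Set.Finite.of_finite_image (f := fun γ : GL (Fin n) ℤ => γ.val)
    ((finite_matrices K q hc hε hq T).subset ?_) (Units.val_injective.injOn)
  rintro _ ⟨γ, ⟨hγ, h⟩, rfl⟩
  exact ⟨hG γ hγ, a, hball, h⟩

/-- a minimiser exists on each interior point -/
lemma exists_min {K : PointedCone ℝ (Fin n → ℝ)} {q : Fin n → ℚ} {c : ℝ} (hc : 0 < c)
    (hq : ∀ x ∈ K, c * ‖x‖ ≤ ratVec q ⬝ᵥ x)
    {G : Subgroup (GL (Fin n) ℤ)} (hG : ∀ γ ∈ G, ∀ x ∈ K, act γ.val x ∈ K)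
    {a : Fin n → ℝ} (ha : a ∈ interior (K : Set (Fin n → ℝ))) :
    ∃ γ ∈ G, ∀ δ ∈ G, ratVec q ⬝ᵥ act γ.val a ≤ ratVec q ⬝ᵥ act δ.val a := by
  have hfin := finite_le hc hq hG ha (ratVec q ⬝ᵥ a)
  obtain ⟨γ₀, hγ₀, hmin⟩ := Set.exists_min_image _ (fun γ : GL (Fin n) ℤ =>
    ratVec q ⬝ᵥ act γ.val a) hfin ⟨1, G.one_mem, by simp⟩
  refine ⟨γ₀, hγ₀.1, fun δ hδ => ?_⟩
  by_cases h : ratVec q ⬝ᵥ act δ.val a ≤ ratVec q ⬝ᵥ a
  · exact hmin δ ⟨hδ, h⟩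
  · push Not at h
    exact hγ₀.2.trans h.le

/-- rational vectors have integral multiples -/
lemma exists_int_mul (p : Fin n → ℚ) : ∃ N : ℕ, 0 < N ∧ ∃ z : Fin n → ℤ, ∀ i, (N : ℚ) * p i = z i := by
  classical
  refine ⟨∏ i, (p i).den, Finset.prod_pos fun i _ => (p i).pos, fun i =>
    (∏ j ∈ Finset.univ.erase i, ((p j).den : ℤ)) * (p i).num, fun i => ?_⟩
  have h1 : (∏ j, ((p j).den : ℚ)) = (∏ j ∈ Finset.univ.erase i, ((p j).den : ℚ)) * (p i).den := by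
    rw [Finset.prod_erase_mul _ _ (Finset.mem_univ i)]
  push_cast
  rw [h1, mul_assoc, Rat.den_mul_eq_num]

lemma exists_nat_value {K : PointedCone ℝ (Fin n → ℝ)} {q : Fin n → ℚ} {c : ℝ} (hc : 0 < c)
    (hq : ∀ x ∈ K, c * ‖x‖ ≤ ratVec q ⬝ᵥ x)
    {G : Subgroup (GL (Fin n) ℤ)} (hG : ∀ γ ∈ G, ∀ x ∈ K, act γ.val x ∈ K)
    (s : Fin n → ℚ) (hs : ratVec s ∈ K) :
    ∃ (N : ℕ) (w : GL (Fin n) ℤ → ℕ), 0 < N ∧ ∀ γ ∈ G,
      (w γ : ℝ) = N * (ratVec q ⬝ᵥ act γ.val (ratVec s)) := by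
  classical
  obtain ⟨N₁, hN₁, z₁, hz₁⟩ := exists_int_mul q
  obtain ⟨N₂, hN₂, z₂, hz₂⟩ := exists_int_mul s
  have key : ∀ γ : GL (Fin n) ℤ, ((N₁ * N₂ : ℕ) : ℝ) * (ratVec q ⬝ᵥ act γ.val (ratVec s)) =
      ((∑ i, z₁ i * ∑ j, γ.val i j * z₂ j : ℤ) : ℝ) := by
    intro γ
    have e : ∀ i, act γ.val (ratVec s) i = ∑ j, (γ.val i j : ℝ) * (s j : ℝ) := by
      intro i
      rw [act_apply]
      simp [Matrix.mulVec, dotProduct, ratVec]
    simp only [dotProduct, e]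
    push_cast
    rw [Finset.mul_sum]
    refine Finset.sum_congr rfl fun i _ => ?_
    have h1 : (z₁ i : ℝ) = (N₁ : ℝ) * (q i : ℝ) := by
      have := hz₁ i
      have h := congrArg (fun r : ℚ => (r : ℝ)) this
      push_cast at h
      exact h.symm
    have h2 : ∀ j, (z₂ j : ℝ) = (N₂ : ℝ) * (s j : ℝ) := by
      intro j
      have := hz₂ j
      have h := congrArg (fun r : ℚ => (r : ℝ)) this
      push_cast at h
      exact h.symm
    rw [h1]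
    have : ∑ j, (γ.val i j : ℝ) * (z₂ j : ℝ) = (N₂ : ℝ) * ∑ j, (γ.val i j : ℝ) * (s j : ℝ) := by
      rw [Finset.mul_sum]
      refine Finset.sum_congr rfl fun j _ => ?_
      rw [h2]; ring
    rw [this]
    show (N₁ : ℝ) * N₂ * (ratVec q i * _) = _
    simp only [ratVec]
    ring
  refine ⟨N₁ * N₂, fun γ => (∑ i, z₁ i * ∑ j, γ.val i j * z₂ j).toNat, by positivity,
    fun γ hγ => ?_⟩
  have hnn : (0 : ℝ) ≤ ((∑ i, z₁ i * ∑ j, γ.val i j * z₂ j : ℤ) : ℝ) := by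
    rw [← key]
    have := hq _ (hG γ hγ _ hs)
    have h2 : 0 ≤ c * ‖act γ.val (ratVec s)‖ := by positivity
    have h3 := h2.trans this
    positivity
  have hnn' : 0 ≤ (∑ i, z₁ i * ∑ j, γ.val i j * z₂ j) := by exact_mod_cast hnn
  rw [key]
  have := Int.toNat_of_nonneg hnn'
  exact_mod_cast this

/-- the group elements which minimise `q` on some interior point of the cone over `S` -/
def minSet (K : PointedCone ℝ (Fin n → ℝ)) (q : Fin n → ℚ) (G : Subgroup (GL (Fin n) ℤ))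
    (S : Finset (Fin n → ℚ)) : Set (GL (Fin n) ℤ) :=
  {γ | γ ∈ G ∧ ∃ y ∈ rcone S, y ∈ interior (K : Set (Fin n → ℝ)) ∧
    ∀ δ ∈ G, ratVec q ⬝ᵥ act γ.val y ≤ ratVec q ⬝ᵥ act δ.val y}

/-- the sum of the generators actually used is an interior point -/
lemma sum_mem_interior {K : PointedCone ℝ (Fin n → ℝ)} (I : Finset (Fin n → ℚ))
    (hI : ∀ s ∈ I, ratVec s ∈ K) (c : (Fin n → ℚ) → ℝ) (hc : ∀ s, 0 ≤ c s)
    (hy : ∑ s ∈ I, c s • ratVec s ∈ interior (K : Set (Fin n → ℝ))) :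
    ∑ s ∈ I, ratVec s ∈ interior (K : Set (Fin n → ℝ)) := by
  set M : ℝ := ∑ s ∈ I, c s + 1 with hM
  have hMpos : 0 < M := by
    have : 0 ≤ ∑ s ∈ I, c s := Finset.sum_nonneg fun s _ => hc s
    linarith
  have hle : ∀ s ∈ I, c s ≤ M := by
    intro s hs
    have := Finset.single_le_sum (f := c) (fun s _ => hc s) hs
    linarith
  have h1 : ∑ s ∈ I, (M - c s) • ratVec s ∈ K :=
    Submodule.sum_mem _ fun s hs => PointedCone.smul_mem _ (by linarith [hle s hs]) (hI s hs)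
  have h2 := int_add hy h1
  rw [← Finset.sum_add_distrib] at h2
  have h3 : ∑ s ∈ I, (c s • ratVec s + (M - c s) • ratVec s) = M • ∑ s ∈ I, ratVec s := by
    rw [Finset.smul_sum]
    refine Finset.sum_congr rfl fun s _ => ?_
    rw [← add_smul]; congr 1; ring
  rw [h3] at h2
  have h4 := int_smul (inv_pos.2 hMpos) h2
  rwa [smul_smul, inv_mul_cancel₀ hMpos.ne', one_smul] at h4

theorem minSet_finite {K : PointedCone ℝ (Fin n → ℝ)} {q : Fin n → ℚ} {c : ℝ} (hc : 0 < c)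
    (hq : ∀ x ∈ K, c * ‖x‖ ≤ ratVec q ⬝ᵥ x)
    {G : Subgroup (GL (Fin n) ℤ)} (hG : ∀ γ ∈ G, ∀ x ∈ K, act γ.val x ∈ K)
    (S : Finset (Fin n → ℚ)) (hS : ∀ s ∈ S, ratVec s ∈ K) : (minSet K q G S).Finite := by
  classical
  have hex : ∀ s : {s // s ∈ S}, ∃ (N : ℕ) (w : GL (Fin n) ℤ → ℕ), 0 < N ∧ ∀ γ ∈ G,
      (w γ : ℝ) = N * (ratVec q ⬝ᵥ act γ.val (ratVec s.1)) := fun s =>
    exists_nat_value hc hq hG s.1 (hS s.1 s.2)
  choose N w hN hw using hex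
  -- value as a function on a subset
  let W : (I : Finset (Fin n → ℚ)) → (hI : I ⊆ S) → GL (Fin n) ℤ → ({s // s ∈ I} → ℕ) :=
    fun I hI γ s => w ⟨s.1, hI s.2⟩ γ
  let A : (I : Finset (Fin n → ℚ)) → (hI : I ⊆ S) → Set ({s // s ∈ I} → ℕ) := fun I hI =>
    {v | (∃ γ ∈ G, W I hI γ = v) ∧ ∀ δ ∈ G, W I hI δ ≤ v → W I hI δ = v}
  have hA : ∀ I hI, (A I hI).Finite := by
    intro I hI
    refine IsAntichain.finite_of_partiallyWellOrderedOn (r := (· ≤ ·)) ?_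
      (Set.isPWO_of_wellQuasiOrderedLE _)
    rintro v ⟨⟨γ, hγ, hγv⟩, hv⟩ v' ⟨⟨γ', hγ', hγv'⟩, hv'⟩ hne hle
    apply hne
    have := hv' γ hγ (by rw [hγv]; exact hle)
    rw [← hγv, this]
  have hB : ∀ I hI, (∑ s ∈ I, ratVec s) ∈ interior (K : Set (Fin n → ℝ)) →
      {γ : GL (Fin n) ℤ | γ ∈ G ∧ W I hI γ ∈ A I hI}.Finite := by
    intro I hI hint
    obtain ⟨T, hT⟩ : ∃ T : ℝ, ∀ v ∈ A I hI,
        ∑ s : {s // s ∈ I}, (N ⟨s.1, hI s.2⟩ : ℝ)⁻¹ * (v s : ℝ) ≤ T := by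
      obtain ⟨T, hT⟩ := ((hA I hI).image (fun v : {s // s ∈ I} → ℕ =>
        ∑ s : {s // s ∈ I}, (N ⟨s.1, hI s.2⟩ : ℝ)⁻¹ * (v s : ℝ))).bddAbove
      exact ⟨T, fun v hv => hT ⟨v, hv, rfl⟩⟩
    refine (finite_le hc hq hG hint T).subset ?_
    rintro γ ⟨hγ, hγA⟩
    refine ⟨hγ, ?_⟩
    have h1 := hT _ hγA
    refine le_trans (le_of_eq ?_) h1
    have h2 : ∀ s : {s // s ∈ I}, (N ⟨s.1, hI s.2⟩ : ℝ)⁻¹ * (W I hI γ s : ℝ) =
        ratVec q ⬝ᵥ act γ.val (ratVec s.1) := by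
      intro s
      show (N ⟨s.1, hI s.2⟩ : ℝ)⁻¹ * (w ⟨s.1, hI s.2⟩ γ : ℝ) = _
      rw [hw _ γ hγ]
      have : (N ⟨s.1, hI s.2⟩ : ℝ) ≠ 0 := by exact_mod_cast (hN _).ne'
      field_simp
    rw [Finset.sum_congr rfl fun s _ => h2 s, map_sum, dotProduct_sum]
    exact (Finset.sum_coe_sort I (fun s => ratVec q ⬝ᵥ act γ.val (ratVec s))).symm
  have hunion : minSet K q G S ⊆ ⋃ I ∈ {I : {I : Finset (Fin n → ℚ) // I ⊆ S} |
      (∑ s ∈ I.1, ratVec s) ∈ interior (K : Set (Fin n → ℝ))},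
      {γ : GL (Fin n) ℤ | γ ∈ G ∧ W I.1 I.2 γ ∈ A I.1 I.2} := by
    rintro γ ⟨hγ, y, hyS, hyK, hmin⟩
    obtain ⟨b, hb, hyb⟩ := (mem_hull_iff S y).1 hyS
    set I : Finset (Fin n → ℚ) := S.filter (fun s => 0 < b s) with hIdef
    have hIS : I ⊆ S := Finset.filter_subset _ _
    have hyI : y = ∑ s ∈ I, b s • ratVec s := by
      rw [hyb, hIdef, Finset.sum_filter]
      refine Finset.sum_congr rfl fun s _ => ?_
      split_ifs with h
      · rfl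
      · rw [le_antisymm (not_lt.1 h) (hb s), zero_smul]
    have hint : (∑ s ∈ I, ratVec s) ∈ interior (K : Set (Fin n → ℝ)) :=
      sum_mem_interior I (fun s hs => hS s (hIS hs)) b hb (by rw [← hyI]; exact hyK)
    refine Set.mem_iUnion₂.2 ⟨⟨I, hIS⟩, hint, hγ, ⟨γ, hγ, rfl⟩, fun δ hδ hle => ?_⟩
    have hval : ∀ δ ∈ G, ratVec q ⬝ᵥ act δ.val y = ∑ s : {s // s ∈ I},
        b s.1 * ((N ⟨s.1, hIS s.2⟩ : ℝ)⁻¹ * (W I hIS δ s : ℝ)) := by
      intro δ hδ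
      rw [hyI, map_sum, dotProduct_sum, ← Finset.sum_coe_sort I]
      refine Finset.sum_congr rfl fun s _ => ?_
      show _ = b s.1 * ((N ⟨s.1, hIS s.2⟩ : ℝ)⁻¹ * (w ⟨s.1, hIS s.2⟩ δ : ℝ))
      rw [hw _ δ hδ, map_smul, dotProduct_smul, smul_eq_mul]
      have : (N ⟨s.1, hIS s.2⟩ : ℝ) ≠ 0 := by exact_mod_cast (hN _).ne'
      field_simp
    by_contra hne
    have hlt : ratVec q ⬝ᵥ act δ.val y < ratVec q ⬝ᵥ act γ.val y := by
      rw [hval δ hδ, hval γ hγ]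
      obtain ⟨s, hs⟩ : ∃ s, W I hIS δ s < W I hIS γ s := by
        by_contra hcon
        push Not at hcon
        exact hne (le_antisymm hle hcon)
      refine Finset.sum_lt_sum (fun s _ => ?_) ⟨s, Finset.mem_univ _, ?_⟩
      · have h1 : (W I hIS δ s : ℝ) ≤ (W I hIS γ s : ℝ) := by exact_mod_cast hle s
        have h2 : (0 : ℝ) ≤ (N ⟨s.1, hIS s.2⟩ : ℝ)⁻¹ := by positivity
        exact mul_le_mul_of_nonneg_left (mul_le_mul_of_nonneg_left h1 h2) (hb _)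
      · have h1 : (W I hIS δ s : ℝ) < (W I hIS γ s : ℝ) := by exact_mod_cast hs
        have h2 : (0 : ℝ) < (N ⟨s.1, hIS s.2⟩ : ℝ)⁻¹ := by
          have : (0 : ℝ) < N ⟨s.1, hIS s.2⟩ := by exact_mod_cast hN _
          positivity
        have h3 : 0 < b s.1 := (Finset.mem_filter.1 s.2).2
        exact mul_lt_mul_of_pos_left (mul_lt_mul_of_pos_left h1 h2) h3
    exact absurd (hmin δ hδ) (not_le.2 hlt)
  refine Set.Finite.subset (Set.Finite.biUnion ?_ fun I hI => hB I.1 I.2 hI) hunion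
  have : Finite {I : Finset (Fin n → ℚ) // I ⊆ S} := by
    have : Finite {I : Finset (Fin n → ℚ) // I ∈ S.powerset} := inferInstance
    exact Finite.of_injective
      (fun I : {I : Finset (Fin n → ℚ) // I ⊆ S} =>
        (⟨I.1, Finset.mem_powerset.2 I.2⟩ : {I : Finset (Fin n → ℚ) // I ∈ S.powerset}))
      (fun I J h => by
        have := congrArg Subtype.val h
        exact Subtype.ext this)
  exact Set.toFinite _

/-- Siegel property -/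
theorem siegel {K : PointedCone ℝ (Fin n → ℝ)} {q : Fin n → ℚ} {c : ℝ} (hc : 0 < c)
    (hq : ∀ x ∈ K, c * ‖x‖ ≤ ratVec q ⬝ᵥ x)
    {G : Subgroup (GL (Fin n) ℤ)} (hG : ∀ γ ∈ G, ∀ x ∈ K, act γ.val x ∈ K)
    (S S' : Finset (Fin n → ℚ)) (hS : ∀ s ∈ S, ratVec s ∈ K) (hS' : ∀ s ∈ S', ratVec s ∈ K) :
    {γ : GL (Fin n) ℤ | γ ∈ G ∧ ∃ x ∈ rcone S, x ∈ interior (K : Set (Fin n → ℝ)) ∧
      act γ.val x ∈ rcone S'}.Finite := by
  have h1 := minSet_finite hc hq hG S hS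
  have h2 := minSet_finite hc hq hG S' hS'
  refine (Set.Finite.image2 (fun β α => β⁻¹ * α) h2 h1).subset ?_
  rintro γ ⟨hγ, x, hx, hxK, hxS'⟩
  obtain ⟨β, hβ, hmin⟩ := exists_min hc hq hG (int_act hG hγ hxK)
  refine ⟨β, ⟨hβ, _, hxS', int_act hG hγ hxK, hmin⟩, β * γ,
    ⟨G.mul_mem hβ hγ, x, hx, hxK, fun δ hδ => ?_⟩, by simp⟩
  have h3 := hmin (δ * γ⁻¹) (G.mul_mem hδ (G.inv_mem hγ))
  rw [← act_mul_apply, ← act_mul_apply, ← Units.val_mul, ← Units.val_mul] at h3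
  rwa [inv_mul_cancel_right] at h3

end Pool.Agent.H92Cone
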