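import Pool.Agent.H92Cone.Basic

/-!
Covering of rational polyhedral cones, and exact fundamental domains.
-/

namespace Pool.Agent.H92Cone

open Pool.Agent.H93Cone Finset Filter Topology

variable {n : ℕ}

/-- A cone spanned by finitely many rational vectors of a closed salient cone is closed. -/
lemma isClosed_rcone {K : PointedCone ℝ (Fin n → ℝ)} {q : Fin n → ℚ} {c : ℝ} (hc : 0 < c)
    (hq : ∀ x ∈ K, c * ‖x‖ ≤ ratVec q ⬝ᵥ x) (hcl : IsClosed (K : Set (Fin n → ℝ)))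
    (S : Finset (Fin n → ℚ)) (hS : ∀ s ∈ S, ratVec s ∈ K) :
    IsClosed (rcone S : Set (Fin n → ℝ)) := by
  classical
  have hqnn : ∀ x ∈ K, 0 ≤ ratVec q ⬝ᵥ x := fun x hx =>
    (mul_nonneg hc.le (norm_nonneg x)).trans (hq x hx)
  have hqpos : ∀ x ∈ K, x ≠ 0 → 0 < ratVec q ⬝ᵥ x := fun x hx h0 =>
    lt_of_lt_of_le (mul_pos hc (norm_pos_iff.2 h0)) (hq x hx)
  set S₁ := S.filter (fun s => ratVec s ≠ 0) with hS₁
  set f : (Fin n → ℚ) → (Fin n → ℝ) := fun s => (ratVec q ⬝ᵥ ratVec s)⁻¹ • ratVec s with hf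
  have hfin : (f '' (S₁ : Set (Fin n → ℚ))).Finite := S₁.finite_toSet.image f
  have hC : IsClosed (convexHull ℝ (f '' (S₁ : Set (Fin n → ℚ)))) := hfin.isClosed_convexHull ℝ
  have hCsub : convexHull ℝ (f '' (S₁ : Set (Fin n → ℚ))) ⊆ (rcone S : Set (Fin n → ℝ)) := by
    refine convexHull_min ?_ (PointedCone.convex _)
    rintro _ ⟨s, hs, rfl⟩
    have hs' := Finset.mem_filter.1 (Finset.mem_coe.1 hs)
    exact PointedCone.smul_mem _ (inv_nonneg.2 (hqnn _ (hS s hs'.1))) (mem_rcone hs'.1)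
  have hCsup : ∀ z ∈ rcone S, ratVec q ⬝ᵥ z = 1 →
      z ∈ convexHull ℝ (f '' (S₁ : Set (Fin n → ℚ))) := by
    intro z hz h1
    obtain ⟨b, hb, rfl⟩ := (mem_hull_iff S z).1 hz
    have e1 : ∑ s ∈ S, b s • ratVec s = ∑ s ∈ S₁, b s • ratVec s := by
      rw [hS₁, Finset.sum_filter]
      refine Finset.sum_congr rfl fun s _ => ?_
      split_ifs with h
      · rfl
      · rw [not_not] at h; rw [h, smul_zero]
    rw [e1] at h1 ⊢
    have e2 : ∑ s ∈ S₁, b s • ratVec s = ∑ s ∈ S₁, (b s * (ratVec q ⬝ᵥ ratVec s)) • f s := by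
      refine Finset.sum_congr rfl fun s hs => ?_
      have hs' := Finset.mem_filter.1 hs
      rw [hf, smul_smul, mul_assoc, mul_inv_cancel₀ (hqpos _ (hS s hs'.1) hs'.2).ne', mul_one]
    rw [dotProduct_sum] at h1
    have e3 : ∑ s ∈ S₁, b s * (ratVec q ⬝ᵥ ratVec s) = 1 := by
      rw [← h1]
      refine Finset.sum_congr rfl fun s _ => ?_
      rw [dotProduct_smul, smul_eq_mul]
    rw [e2]
    refine (convex_convexHull ℝ _).sum_mem (fun s hs => ?_) e3 (fun s hs => ?_)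
    · have hs' := Finset.mem_filter.1 hs
      exact mul_nonneg (hb s) (hqnn _ (hS s hs'.1))
    · exact subset_convexHull ℝ _ ⟨s, hs, rfl⟩
  refine isClosed_of_closure_subset fun x hx => ?_
  obtain ⟨u, hu, hlim⟩ := mem_closure_iff_seq_limit.1 hx
  have hSK := rcone_le hS
  have hxK : x ∈ K := hcl.mem_of_tendsto hlim (Eventually.of_forall fun k => hSK _ (hu k))
  by_cases h0 : x = 0
  · rw [h0]; exact Submodule.zero_mem _
  have hqx := hqpos x hxK h0
  have hlim2 : Tendsto (fun k => ratVec q ⬝ᵥ u k) atTop (𝓝 (ratVec q ⬝ᵥ x)) :=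
    ((continuous_dot (ratVec q)).tendsto x).comp hlim
  have hlim3 : Tendsto (fun k => (ratVec q ⬝ᵥ u k)⁻¹ • u k) atTop
      (𝓝 ((ratVec q ⬝ᵥ x)⁻¹ • x)) := (hlim2.inv₀ hqx.ne').smul hlim
  have hmem : (ratVec q ⬝ᵥ x)⁻¹ • x ∈ convexHull ℝ (f '' (S₁ : Set (Fin n → ℚ))) := by
    refine hC.mem_of_tendsto hlim3 ?_
    filter_upwards [hlim2.eventually (lt_mem_nhds hqx)] with k hk
    refine hCsup _ (PointedCone.smul_mem _ (inv_nonneg.2 hk.le) (hu k)) ?_
    rw [dotProduct_smul, smul_eq_mul, inv_mul_cancel₀ hk.ne']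
  have h2 := PointedCone.smul_mem (rcone S) hqx.le (hCsub hmem)
  rwa [smul_smul, mul_inv_cancel₀ hqx.ne', one_smul] at h2

/-- If translates of a rational polyhedral cone cover the interior, they cover every
rational polyhedral cone in `K`. -/
theorem cover_rational {K : PointedCone ℝ (Fin n → ℝ)} {q : Fin n → ℚ} {c : ℝ} (hc : 0 < c)
    (hq : ∀ x ∈ K, c * ‖x‖ ≤ ratVec q ⬝ᵥ x) (hcl : IsClosed (K : Set (Fin n → ℝ)))
    (hint : (interior (K : Set (Fin n → ℝ))).Nonempty)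
    {G : Subgroup (GL (Fin n) ℤ)} (hG : ∀ γ ∈ G, ∀ x ∈ K, act γ.val x ∈ K)
    (S₀ : Finset (Fin n → ℚ)) (hS₀ : ∀ s ∈ S₀, ratVec s ∈ K)
    (hcov : ∀ x ∈ interior (K : Set (Fin n → ℝ)), ∃ γ ∈ G, ∃ y ∈ rcone S₀, act γ.val y = x)
    (S₂ : Finset (Fin n → ℚ)) (hS₂ : ∀ s ∈ S₂, ratVec s ∈ K) :
    ∀ x ∈ rcone S₂, ∃ γ ∈ G, ∃ y ∈ rcone S₀, act γ.val y = x := by
  classical
  obtain ⟨z, hz⟩ : ∃ z : Fin n → ℚ, ratVec z ∈ interior (K : Set (Fin n → ℝ)) := by
    obtain ⟨x₀, hx₀⟩ := hint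
    obtain ⟨ε, hε, hball⟩ := Metric.isOpen_iff.1 isOpen_interior x₀ hx₀
    have h : ∀ i, ∃ r : ℚ, |(r : ℝ) - x₀ i| < ε := by
      intro i
      obtain ⟨r, h1, h2⟩ := exists_rat_btwn (show x₀ i - ε < x₀ i + ε by linarith)
      exact ⟨r, by rw [abs_lt]; constructor <;> linarith⟩
    choose x hx using h
    refine ⟨x, hball ?_⟩
    rw [mem_ball_iff_norm, pi_norm_lt_iff hε]
    intro i
    exact hx i
  intro x hx
  set S₃ := insert z S₂ with hS₃def
  have hS₃ : ∀ s ∈ S₃, ratVec s ∈ K := by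
    intro s hs
    rcases Finset.mem_insert.1 hs with rfl | h
    · exact interior_subset hz
    · exact hS₂ s h
  have hfin := siegel hc hq hG S₀ S₃ hS₀ hS₃
  set Φ := {γ : GL (Fin n) ℤ | γ ∈ G ∧ ∃ x ∈ rcone S₀, x ∈ interior (K : Set (Fin n → ℝ)) ∧
      act γ.val x ∈ rcone S₃} with hΦ
  have hFcl : IsClosed (⋃ γ ∈ Φ, {x : Fin n → ℝ |
      act (γ⁻¹ : GL (Fin n) ℤ).val x ∈ (rcone S₀ : Set (Fin n → ℝ))}) :=
    hfin.isClosed_biUnion fun γ _ =>
      (isClosed_rcone hc hq hcl S₀ hS₀).preimage (act_continuous _)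
  have hlim : Tendsto (fun k : ℕ => x + ((k : ℝ) + 1)⁻¹ • ratVec z) atTop
      (𝓝 (x + (0 : ℝ) • ratVec z)) := by
    have h2 : Tendsto (fun k : ℕ => ((k : ℝ) + 1)⁻¹) atTop (𝓝 0) := by
      have := tendsto_one_div_add_atTop_nhds_zero_nat (𝕜 := ℝ)
      simpa [one_div] using this
    exact tendsto_const_nhds.add (h2.smul_const _)
  rw [zero_smul, add_zero] at hlim
  have hmem := hFcl.mem_of_tendsto hlim (Eventually.of_forall fun k => by
    have hk : (0 : ℝ) < ((k : ℝ) + 1)⁻¹ := by positivity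
    have hxk : x + ((k : ℝ) + 1)⁻¹ • ratVec z ∈ interior (K : Set (Fin n → ℝ)) := by
      rw [add_comm]
      exact int_add (int_smul hk hz) (rcone_le hS₂ x hx)
    have hxS : x + ((k : ℝ) + 1)⁻¹ • ratVec z ∈ rcone S₃ :=
      (rcone S₃).add_mem (rcone_mono (Finset.subset_insert _ _) hx)
        (PointedCone.smul_mem _ hk.le (mem_rcone (Finset.mem_insert_self _ _)))
    obtain ⟨γ, hγ, y, hy, hyx⟩ := hcov _ hxk
    have hyeq : act (γ⁻¹ : GL (Fin n) ℤ).val (x + ((k : ℝ) + 1)⁻¹ • ratVec z) = y := by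
      rw [← hyx, act_val_inv]
    refine Set.mem_iUnion₂.2 ⟨γ, ⟨hγ, y, hy, ?_, by rw [hyx]; exact hxS⟩, ?_⟩
    · rw [← hyeq]
      exact int_act hG (G.inv_mem hγ) hxk
    · show act (γ⁻¹ : GL (Fin n) ℤ).val (x + ((k : ℝ) + 1)⁻¹ • ratVec z) ∈ rcone S₀
      rw [hyeq]; exact hy)
  obtain ⟨γ, hγ, hγx⟩ := Set.mem_iUnion₂.1 hmem
  exact ⟨γ, hγ.1, _, hγx, act_inv_val _ _⟩

lemma rcone_nonneg {S : Finset (Fin n → ℚ)} {f : (Fin n → ℝ) →ₗ[ℝ] ℝ}
    (h : ∀ s ∈ S, 0 ≤ f (ratVec s)) : ∀ x ∈ rcone S, 0 ≤ f x := by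
  intro x hx
  obtain ⟨b, hb, rfl⟩ := (mem_hull_iff S x).1 hx
  rw [map_sum]
  refine Finset.sum_nonneg fun s hs => ?_
  rw [map_smul, smul_eq_mul]
  exact mul_nonneg (hb s) (h s hs)

/-- rational action -/
def ract (g : Matrix (Fin n) (Fin n) ℤ) (x : Fin n → ℚ) : Fin n → ℚ :=
  Matrix.mulVec (g.map (Int.cast : ℤ → ℚ)) x

lemma ratVec_ract (g : Matrix (Fin n) (Fin n) ℤ) (x : Fin n → ℚ) :
    ratVec (ract g x) = act g (ratVec x) := by
  funext i
  show (((g.map (Int.cast : ℤ → ℚ)).mulVec x i : ℚ) : ℝ) = _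
  simp [act_apply, Matrix.mulVec, dotProduct, ratVec]

/-- the functional `x ↦ p ⬝ x` after an integer matrix minus another -/
def dfun (p : Fin n → ℚ) (g h : Matrix (Fin n) (Fin n) ℤ) : (Fin n → ℝ) →ₗ[ℝ] ℝ :=
  { toFun := fun x => ratVec p ⬝ᵥ act g x - ratVec p ⬝ᵥ act h x
    map_add' := by
      intro x y
      rw [map_add, map_add, dotProduct_add, dotProduct_add]; ring
    map_smul' := by
      intro a x
      rw [map_smul, map_smul, dotProduct_smul, dotProduct_smul]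
      simp [mul_sub] }

lemma dfun_apply (p : Fin n → ℚ) (g h : Matrix (Fin n) (Fin n) ℤ) (x : Fin n → ℝ) :
    dfun p g h x = ratVec p ⬝ᵥ act g x - ratVec p ⬝ᵥ act h x := rfl

lemma dfun_lq (p : Fin n → ℚ) (g h : Matrix (Fin n) (Fin n) ℤ) (x : Fin n → ℝ) :
    ratVec (lq g p - lq h p) ⬝ᵥ x = dfun p g h x := by
  rw [ratVec_sub, sub_dotProduct, dot_lq, dot_lq]; rfl

theorem exact_domain (K : PointedCone ℝ (Fin n → ℝ))
    (hcl : IsClosed (K : Set (Fin n → ℝ))) (hsal : ∀ x, x ∈ K → -x ∈ K → x = 0)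
    (hint : (interior (K : Set (Fin n → ℝ))).Nonempty)
    (G : Subgroup (GL (Fin n) ℤ)) (hG : ∀ γ ∈ G, ∀ x ∈ K, act γ.val x ∈ K)
    (S₀ : Finset (Fin n → ℚ)) (hS₀ : ∀ s ∈ S₀, ratVec s ∈ K)
    (hcov : ∀ x ∈ interior (K : Set (Fin n → ℝ)), ∃ γ ∈ G, ∃ y ∈ rcone S₀, act γ.val y = x) :
    ∃ S : Finset (Fin n → ℚ), (∀ s ∈ S, ratVec s ∈ K) ∧
      (∀ x ∈ interior (K : Set (Fin n → ℝ)), ∃ γ ∈ G, ∃ y ∈ rcone S, act γ.val y = x) ∧
      (∀ γ ∈ G, γ ≠ 1 → Disjoint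
        (interior (rcone S : Set (Fin n → ℝ)))
        (interior (act γ.val '' (rcone S : Set (Fin n → ℝ))))) := by
  classical
  obtain ⟨q, c, hc, hq⟩ := exists_pos_rat K hcl hsal
  have hval : Function.Injective (fun γ : GL (Fin n) ℤ => γ.val) := Units.val_injective
  obtain ⟨x₀, hx₀⟩ := hint
  -- stabiliser of the functional
  have hHfin : {γ : GL (Fin n) ℤ | γ ∈ G ∧ lq γ.val q = q}.Finite := by
    refine (finite_le hc hq hG hx₀ (ratVec q ⬝ᵥ x₀)).subset ?_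
    rintro γ ⟨hγ, hst⟩
    exact ⟨hγ, by rw [← dot_lq, hst]⟩
  set H : Finset (GL (Fin n) ℤ) := hHfin.toFinset with hH
  have hmemH : ∀ γ, γ ∈ H ↔ γ ∈ G ∧ lq γ.val q = q := fun γ => by
    rw [hH, Set.Finite.mem_toFinset]; rfl
  obtain ⟨p, hp⟩ := exists_free_functional ((H.erase 1).image (fun γ : GL (Fin n) ℤ => γ.val)) (by
    intro g hg h1
    obtain ⟨γ, hγ, rfl⟩ := Finset.mem_image.1 hg
    exact (Finset.mem_erase.1 hγ).1 (hval h1))
  have hTfin := minSet_finite hc hq hG S₀ hS₀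
  set T : Finset (GL (Fin n) ℤ) := hTfin.toFinset with hT
  have hmemT : ∀ γ, γ ∈ T ↔ γ ∈ minSet K q G S₀ := fun γ => by
    rw [hT, Set.Finite.mem_toFinset]
  have hTG : ∀ γ ∈ T, γ ∈ G := fun γ hγ => ((hmemT γ).1 hγ).1
  -- the pieces
  have hpiece : ∀ γ : GL (Fin n) ℤ, ∃ S' : Finset (Fin n → ℚ), ∀ x : Fin n → ℝ,
      x ∈ rcone S' ↔ x ∈ rcone S₀ ∧ (∀ δ ∈ T, ratVec q ⬝ᵥ act γ.val x ≤ ratVec q ⬝ᵥ act δ.val x) ∧
        ∀ η ∈ H, ratVec p ⬝ᵥ act γ.val x ≤ ratVec p ⬝ᵥ act (η * γ).val x := by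
    intro γ
    obtain ⟨S', hS'⟩ := rcone_inter S₀ ((T.toList.map (fun δ => lq δ.val q - lq γ.val q)) ++
      (H.toList.map (fun η => lq (η * γ).val p - lq γ.val p)))
    refine ⟨S', fun x => ?_⟩
    rw [hS' x]
    refine and_congr_right fun _ => ?_
    constructor
    · intro h
      refine ⟨fun δ hδ => ?_, fun η hη => ?_⟩
      · have := h (lq δ.val q - lq γ.val q) (by
          rw [List.mem_append]
          exact Or.inl (List.mem_map.2 ⟨δ, by simpa using hδ, rfl⟩))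
        rw [dfun_lq, dfun_apply] at this
        linarith
      · have := h (lq (η * γ).val p - lq γ.val p) (by
          rw [List.mem_append]
          exact Or.inr (List.mem_map.2 ⟨η, by simpa using hη, rfl⟩))
        rw [dfun_lq, dfun_apply] at this
        linarith
    · rintro ⟨h1, h2⟩ w hw
      rw [List.mem_append] at hw
      rcases hw with hw | hw
      · obtain ⟨δ, hδ, rfl⟩ := List.mem_map.1 hw
        have := h1 δ (by simpa using hδ)
        rw [dfun_lq, dfun_apply]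
        linarith
      · obtain ⟨η, hη, rfl⟩ := List.mem_map.1 hw
        have := h2 η (by simpa using hη)
        rw [dfun_lq, dfun_apply]
        linarith
  choose P hP using hpiece
  set T' : Finset (GL (Fin n) ℤ) := T.filter (fun γ =>
    ∃ y ∈ rcone (P γ), y ∈ interior (K : Set (Fin n → ℝ))) with hT'
  set S : Finset (Fin n → ℚ) := T'.biUnion (fun γ => (P γ).image (ract γ.val)) with hS
  -- pieces satisfy all inequalities
  have hmin_int : ∀ γ ∈ T, ∀ y ∈ rcone (P γ), y ∈ interior (K : Set (Fin n → ℝ)) →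
      ∀ δ ∈ G, ratVec q ⬝ᵥ act γ.val y ≤ ratVec q ⬝ᵥ act δ.val y := by
    intro γ _ y hy hyK δ hδ
    obtain ⟨h1, h2, _⟩ := (hP γ y).1 hy
    obtain ⟨δ₀, hδ₀, hmin⟩ := exists_min hc hq hG hyK
    exact (h2 δ₀ ((hmemT _).2 ⟨hδ₀, y, h1, hyK, hmin⟩)).trans (hmin δ hδ)
  have hmin_all : ∀ γ ∈ T', ∀ y ∈ rcone (P γ), ∀ δ ∈ G,
      ratVec q ⬝ᵥ act γ.val y ≤ ratVec q ⬝ᵥ act δ.val y := by
    intro γ hγ y hy δ hδ
    obtain ⟨hγT, z, hz, hzK⟩ := Finset.mem_filter.1 hγ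
    have hyK : y ∈ K := rcone_le hS₀ y ((hP γ y).1 hy).1
    by_contra hcon
    push Not at hcon
    -- perturb
    have hd : 0 < dfun q γ.val δ.val y := by rw [dfun_apply]; linarith
    set a := dfun q γ.val δ.val y with ha
    set b := dfun q γ.val δ.val z with hb
    obtain ⟨ε, hε, hεb⟩ : ∃ ε : ℝ, 0 < ε ∧ 0 < a + ε * b := by
      refine ⟨a / (2 * (|b| + 1)), by positivity, ?_⟩
      have h1 : -|b| ≤ b := neg_abs_le b
      have h2 : a / (2 * (|b| + 1)) * b ≥ -(a / 2) := by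
        have h3 : a / (2 * (|b| + 1)) * (|b| + 1) = a / 2 := by field_simp
        have h4 : 0 < a / (2 * (|b| + 1)) := by positivity
        nlinarith
      linarith
    have h1 := hmin_int γ hγT (y + ε • z)
      ((rcone (P γ)).add_mem hy (PointedCone.smul_mem _ hε.le hz))
      (by rw [add_comm]; exact int_add (int_smul hε hzK) hyK) δ hδ
    have h2 : dfun q γ.val δ.val (y + ε • z) = a + ε * b := by
      rw [map_add, map_smul, smul_eq_mul]
    rw [dfun_apply] at h2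
    linarith
  -- all generators satisfy the inequalities
  have hdom : ∀ x ∈ rcone S, x ∈ K ∧ (∀ δ ∈ G, ratVec q ⬝ᵥ x ≤ ratVec q ⬝ᵥ act δ.val x) ∧
      ∀ η ∈ H, ratVec p ⬝ᵥ x ≤ ratVec p ⬝ᵥ act η.val x := by
    have hgen : ∀ s ∈ S, ∃ γ ∈ T', ∃ y ∈ rcone (P γ), ratVec s = act γ.val y := by
      intro s hs
      obtain ⟨γ, hγ, hs'⟩ := Finset.mem_biUnion.1 hs
      obtain ⟨t, ht, rfl⟩ := Finset.mem_image.1 hs'
      exact ⟨γ, hγ, ratVec t, mem_rcone ht, ratVec_ract _ _⟩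
    intro x hx
    refine ⟨rcone_le (fun s hs => ?_) x hx, fun δ hδ => ?_, fun η hη => ?_⟩
    · obtain ⟨γ, hγ, y, hy, hsy⟩ := hgen s hs
      rw [hsy]
      exact hG γ (hTG γ (Finset.mem_filter.1 hγ).1) _ (rcone_le hS₀ y ((hP γ y).1 hy).1)
    · have h1 := rcone_nonneg (f := dfun q δ.val 1) (fun s hs => ?_) x hx
      · rw [dfun_apply, act_one] at h1
        simp only [LinearMap.id_apply] at h1
        linarith
      · obtain ⟨γ, hγ, y, hy, hsy⟩ := hgen s hs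
        rw [hsy, dfun_apply, act_one, LinearMap.id_apply, ← act_mul_apply, ← Units.val_mul]
        have := hmin_all γ hγ y hy (δ * γ) (G.mul_mem hδ (hTG γ (Finset.mem_filter.1 hγ).1))
        linarith
    · have h1 := rcone_nonneg (f := dfun p η.val 1) (fun s hs => ?_) x hx
      · rw [dfun_apply, act_one] at h1
        simp only [LinearMap.id_apply] at h1
        linarith
      · obtain ⟨γ, hγ, y, hy, hsy⟩ := hgen s hs
        rw [hsy, dfun_apply, act_one, LinearMap.id_apply, ← act_mul_apply, ← Units.val_mul]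
        have := ((hP γ y).1 hy).2.2 η hη
        linarith
  refine ⟨S, fun s hs => (hdom _ (mem_rcone hs)).1, fun x hx => ?_, fun γ hγ hγ1 => ?_⟩
  · -- covering
    obtain ⟨γ₀, hγ₀, hmin⟩ := exists_min hc hq hG hx
    have hHne : H.Nonempty := ⟨1, (hmemH 1).2 ⟨G.one_mem, by simp [lq]⟩⟩
    obtain ⟨η, hη, hηmin⟩ := H.exists_min_image (fun η : GL (Fin n) ℤ =>
      ratVec p ⬝ᵥ act η.val (act γ₀.val x)) hHne
    obtain ⟨hηG, hηst⟩ := (hmemH η).1 hη
    set ζ : GL (Fin n) ℤ := η * γ₀ with hζ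
    have hζG : ζ ∈ G := G.mul_mem hηG hγ₀
    have hy : act ζ.val x = act η.val (act γ₀.val x) := by
      rw [hζ, Units.val_mul, act_mul_apply]
    have hqy : ratVec q ⬝ᵥ act ζ.val x = ratVec q ⬝ᵥ act γ₀.val x := by
      rw [hy, ← dot_lq, hηst]
    -- write the point over the covering cone
    obtain ⟨δ, hδ, y, hyS₀, hyx⟩ := hcov _ (int_act hG hζG hx)
    have hyK : y ∈ interior (K : Set (Fin n → ℝ)) := by
      have : y = act (δ⁻¹ : GL (Fin n) ℤ).val (act ζ.val x) := by rw [← hyx, act_val_inv]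
      rw [this]
      exact int_act hG (G.inv_mem hδ) (int_act hG hζG hx)
    have hallmin : ∀ δ' ∈ G, ratVec q ⬝ᵥ act δ.val y ≤ ratVec q ⬝ᵥ act δ'.val y := by
      intro δ' hδ'
      rw [hyx, hqy]
      have e : act δ'.val y = act (δ' * δ⁻¹ * ζ : GL (Fin n) ℤ).val x := by
        have : y = act (δ⁻¹ : GL (Fin n) ℤ).val (act ζ.val x) := by rw [← hyx, act_val_inv]
        rw [this, ← act_mul_apply, ← act_mul_apply, ← Units.val_mul, ← Units.val_mul, mul_assoc]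
      rw [e]
      exact hmin _ (G.mul_mem (G.mul_mem hδ' (G.inv_mem hδ)) hζG)
    have hδT : δ ∈ T := (hmemT δ).2 ⟨hδ, y, hyS₀, hyK, hallmin⟩
    have hyP : y ∈ rcone (P δ) := by
      refine (hP δ y).2 ⟨hyS₀, fun δ' hδ' => hallmin δ' (hTG δ' hδ'), fun η' hη' => ?_⟩
      obtain ⟨hη'G, hη'st⟩ := (hmemH η').1 hη'
      have h1 : η' * η ∈ H := by
        refine (hmemH _).2 ⟨G.mul_mem hη'G hηG, ?_⟩
        apply ratVec_injective
        rw [ratVec_lq, Units.val_mul, lr_mul, ← ratVec_lq, hη'st, ← ratVec_lq, hηst]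
      have h2 := hηmin _ h1
      rw [Units.val_mul, act_mul_apply, hyx, hy]
      simp only [Units.val_mul, act_mul_apply] at h2
      exact h2
    have hδT' : δ ∈ T' := Finset.mem_filter.2 ⟨hδT, y, hyP, hyK⟩
    have hmemS : act δ.val y ∈ rcone S := by
      obtain ⟨b, hb, hyb⟩ := (mem_hull_iff (P δ) y).1 hyP
      rw [hyb, map_sum]
      refine Submodule.sum_mem _ fun s hs => ?_
      rw [map_smul, ← ratVec_ract]
      refine PointedCone.smul_mem _ (hb s) (mem_rcone ?_)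
      exact Finset.mem_biUnion.2 ⟨δ, hδT', Finset.mem_image_of_mem _ hs⟩
    refine ⟨ζ⁻¹, G.inv_mem hζG, act δ.val y, hmemS, ?_⟩
    rw [hyx, act_val_inv]
  · rw [Set.disjoint_left]
    intro x hx1 hx2
    set Pi' : Set (Fin n → ℝ) := (rcone S : Set (Fin n → ℝ)) with hPi
    have hopen : IsOpen (interior Pi' ∩ interior (act γ.val '' Pi')) :=
      isOpen_interior.inter isOpen_interior
    have hinvG : γ⁻¹ ∈ G := G.inv_mem hγ
    have hboth : ∀ y ∈ interior Pi' ∩ interior (act γ.val '' Pi'),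
        y ∈ rcone S ∧ act (γ⁻¹ : GL (Fin n) ℤ).val y ∈ rcone S := by
      rintro y ⟨hy1, hy2⟩
      refine ⟨interior_subset hy1, ?_⟩
      obtain ⟨w, hw, rfl⟩ := interior_subset hy2
      rw [act_val_inv]
      exact hw
    have hqeq : ratVec (lq (γ⁻¹ : GL (Fin n) ℤ).val q) = ratVec q := by
      refine eq_of_open hopen ⟨x, hx1, hx2⟩ fun y hy => ?_
      obtain ⟨h1, h2⟩ := hboth y hy
      rw [dot_lq]
      refine le_antisymm ?_ ((hdom y h1).2.1 _ hinvG)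
      have h3 := (hdom _ h2).2.1 γ hγ
      rwa [act_inv_val] at h3
    have hqeq' : lq (γ⁻¹ : GL (Fin n) ℤ).val q = q := ratVec_injective hqeq
    have hγinvH : γ⁻¹ ∈ H := (hmemH _).2 ⟨hinvG, hqeq'⟩
    have hγH : γ ∈ H := by
      refine (hmemH _).2 ⟨hγ, ?_⟩
      apply ratVec_injective
      rw [ratVec_lq]
      conv_lhs => rw [← hqeq]
      rw [ratVec_lq, ← lr_mul, ← Units.val_mul, inv_mul_cancel, Units.val_one]
      rw [lr_apply]
      simp
    have hpeq : ratVec (lq (γ⁻¹ : GL (Fin n) ℤ).val p) = ratVec p := by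
      refine eq_of_open hopen ⟨x, hx1, hx2⟩ fun y hy => ?_
      obtain ⟨h1, h2⟩ := hboth y hy
      rw [dot_lq]
      refine le_antisymm ?_ ((hdom y h1).2.2 _ hγinvH)
      have h3 := (hdom _ h2).2.2 γ hγH
      rwa [act_inv_val] at h3
    have hpeq' := ratVec_injective hpeq
    have hne : γ⁻¹ ≠ 1 := fun h => hγ1 (inv_eq_one.1 h)
    exact hp _ (Finset.mem_image.2 ⟨γ⁻¹, Finset.mem_erase.2 ⟨hne, hγinvH⟩, rfl⟩) hpeq'

end Pool.Agent.H92Cone
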