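import Pool.Agent.H92Cone.Quot

/-!
Names used in the statement of the descent theorem.
-/

namespace Pool.Agent.H92Cone

open Pool.Agent.H93Cone

/-- The cone spanned by a finite set of rational vectors. -/
def cone {n : ℕ} (S : Finset (Fin n → ℚ)) : Set (Fin n → ℝ) :=
  (PointedCone.hull ℝ (ratVec '' (S : Set (Fin n → ℚ))) : Set (Fin n → ℝ))

/-- The group `G` maps the set `A` into itself. -/
def Preserves {n : ℕ} (G : Subgroup (GL (Fin n) ℤ)) (A : Set (Fin n → ℝ)) : Prop :=
  ∀ g ∈ G, ∀ x ∈ A, act g.val x ∈ A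

/-- `A` is the union of the `G`-translates of the cone spanned by `S`. -/
def Covers {n : ℕ} (G : Subgroup (GL (Fin n) ℤ)) (S : Finset (Fin n → ℚ))
    (A : Set (Fin n → ℝ)) : Prop :=
  A = ⋃ g ∈ G, act g.val '' cone S

/-- Translates of the cone spanned by `S` by nontrivial elements have disjoint interior. -/
def Exact {n : ℕ} (G : Subgroup (GL (Fin n) ℤ)) (S : Finset (Fin n → ℚ)) : Prop :=
  ∀ g ∈ G, g ≠ 1 → interior (cone S) ∩ interior (act g.val '' cone S) = ∅

/-- The vectors fixed by the group `H`. -/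
def fixedSpace {n : ℕ} (H : Subgroup (GL (Fin n) ℤ)) : Set (Fin n → ℝ) :=
  {x | ∀ h ∈ H, act h.val x = x}

end Pool.Agent.H92Cone
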