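import Pool.Agent.H92Cone.Domain

/-!
Restriction to the fixed subspace of a finite group of lattice automorphisms.
-/

namespace Pool.Agent.H92Cone

open Pool.Agent.H93Cone Finset Filter Topology

variable {n m : ℕ}

/-- The real linear map given by an integral matrix. -/
def pull (P : Matrix (Fin n) (Fin m) ℤ) : (Fin m → ℝ) →ₗ[ℝ] (Fin n → ℝ) :=
  Matrix.mulVecLin (P.map (Int.cast : ℤ → ℝ))

/-- the real linear map given by a rational matrix -/
def rmap (P : Matrix (Fin n) (Fin m) ℚ) : (Fin m → ℝ) →ₗ[ℝ] (Fin n → ℝ) :=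
  Matrix.mulVecLin (P.map (Rat.cast : ℚ → ℝ))

lemma rmap_apply (P : Matrix (Fin n) (Fin m) ℚ) (x : Fin m → ℝ) (i : Fin n) :
    rmap P x i = ∑ j, (P i j : ℝ) * x j := by
  simp [rmap, Matrix.mulVec, dotProduct]

lemma pull_apply (P : Matrix (Fin n) (Fin m) ℤ) (x : Fin m → ℝ) (i : Fin n) :
    pull P x i = ∑ j, (P i j : ℝ) * x j := by
  simp [pull, Matrix.mulVec, dotProduct]

lemma pull_eq_rmap (P : Matrix (Fin n) (Fin m) ℤ) :
    pull P = rmap (P.map (Int.cast : ℤ → ℚ)) := by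
  apply LinearMap.ext
  intro x
  funext i
  rw [pull_apply, rmap_apply]
  simp

lemma ratVec_mulVec (P : Matrix (Fin n) (Fin m) ℚ) (x : Fin m → ℚ) :
    ratVec (P.mulVec x) = rmap P (ratVec x) := by
  funext i
  rw [rmap_apply]
  simp [ratVec, Matrix.mulVec, dotProduct]

lemma rmap_mul {k : ℕ} (P : Matrix (Fin n) (Fin m) ℚ) (Q : Matrix (Fin m) (Fin k) ℚ)
    (x : Fin k → ℝ) : rmap (P * Q) x = rmap P (rmap Q x) := by
  simp only [rmap, Matrix.mulVecLin_apply]
  rw [Matrix.mulVec_mulVec]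
  congr 1
  have := Matrix.map_mul (f := Rat.castHom ℝ) (L := P) (M := Q)
  exact this

lemma rmap_one (x : Fin n → ℝ) : rmap (1 : Matrix (Fin n) (Fin n) ℚ) x = x := by
  simp only [rmap, Matrix.mulVecLin_apply]
  have : (1 : Matrix (Fin n) (Fin n) ℚ).map (Rat.cast : ℚ → ℝ) = 1 := by
    have := Matrix.map_one (n := Fin n) (Rat.cast : ℚ → ℝ) (by simp) (by simp)
    exact this
  rw [this, Matrix.one_mulVec]

/-- image of a rational cone under a rational linear map -/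
lemma rcone_image (P : Matrix (Fin n) (Fin m) ℚ) (S : Finset (Fin m → ℚ)) :
    ∃ S' : Finset (Fin n → ℚ), ∀ x, x ∈ rcone S' ↔ ∃ y ∈ rcone S, rmap P y = x := by
  classical
  refine ⟨S.image (fun s => P.mulVec s), fun x => ⟨fun hx => ?_, ?_⟩⟩
  · have h : rcone (S.image (fun s => P.mulVec s)) ≤ (rcone S).map ((rmap P)) := by
      refine Submodule.span_le.2 ?_
      rintro _ ⟨s, hs, rfl⟩
      obtain ⟨t, ht, rfl⟩ := Finset.mem_image.1 (Finset.mem_coe.1 hs)
      refine (PointedCone.mem_map).2 ⟨ratVec t, mem_rcone ht, (ratVec_mulVec P t).symm⟩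
    exact PointedCone.mem_map.1 (h hx)
  · rintro ⟨y, hy, rfl⟩
    obtain ⟨b, hb, rfl⟩ := (mem_hull_iff S y).1 hy
    rw [map_sum]
    refine Submodule.sum_mem _ fun s hs => ?_
    rw [map_smul, ← ratVec_mulVec]
    exact PointedCone.smul_mem _ (hb s) (mem_rcone (Finset.mem_image_of_mem _ hs))

/-- an injective integral matrix has a rational left inverse -/
lemma exists_left_inv (P : Matrix (Fin n) (Fin m) ℤ) (hP : Function.Injective (pull P)) :
    ∃ L : Matrix (Fin m) (Fin n) ℚ, ∀ z, rmap L (pull P z) = z := by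
  have hinj : Function.Injective (Matrix.mulVecLin (P.map (Int.cast : ℤ → ℚ))) := by
    intro x y hxy
    have h1 : pull P (ratVec x) = pull P (ratVec y) := by
      rw [pull_eq_rmap, ← ratVec_mulVec, ← ratVec_mulVec]
      exact congrArg ratVec hxy
    exact ratVec_injective (hP h1)
  obtain ⟨g, hg⟩ := LinearMap.exists_leftInverse_of_injective _ (LinearMap.ker_eq_bot.2 hinj)
  refine ⟨LinearMap.toMatrix' g, fun z => ?_⟩
  have h1 : LinearMap.toMatrix' g * P.map (Int.cast : ℤ → ℚ) = 1 := by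
    have h2 := congrArg LinearMap.toMatrix' hg
    rw [LinearMap.toMatrix'_comp, LinearMap.toMatrix'_id] at h2
    rw [← h2]
    congr 1
    rw [← Matrix.toLin'_apply', LinearMap.toMatrix'_toLin']
  rw [pull_eq_rmap, ← rmap_mul, h1, rmap_one]

/-- pulling back a translate of a rational cone along an injective integral matrix -/
lemma rcone_comap (P : Matrix (Fin n) (Fin m) ℤ) (hP : Function.Injective (pull P))
    (S : Finset (Fin n → ℚ)) (a : Matrix (Fin n) (Fin n) ℤ) :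
    ∃ S' : Finset (Fin m → ℚ), ∀ z, z ∈ rcone S' ↔ ∃ y ∈ rcone S, act a y = pull P z := by
  classical
  obtain ⟨L, hL⟩ := exists_left_inv P hP
  obtain ⟨S₁, hS₁⟩ := rcone_image (a.map (Int.cast : ℤ → ℚ)) S
  have hact : ∀ y, rmap (a.map (Int.cast : ℤ → ℚ)) y = act a y := by
    intro y
    funext i
    rw [rmap_apply]
    simp [act_apply, Matrix.mulVec, dotProduct]
  -- the equations
  set E : Matrix (Fin n) (Fin n) ℚ := 1 - P.map (Int.cast : ℤ → ℚ) * L with hE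
  have hEx : ∀ x : Fin n → ℝ, rmap E x = x - pull P (rmap L x) := by
    intro x
    rw [pull_eq_rmap, ← rmap_mul]
    nth_rewrite 2 [← rmap_one x]
    funext i
    rw [Pi.sub_apply, rmap_apply, rmap_apply, rmap_apply, ← Finset.sum_sub_distrib]
    refine Finset.sum_congr rfl fun j _ => ?_
    rw [hE, Matrix.sub_apply]; push_cast; ring
  obtain ⟨S₂, hS₂⟩ := rcone_inter S₁ ((Finset.univ.toList.map (fun i : Fin n => E i)) ++
    (Finset.univ.toList.map (fun i : Fin n => - E i)))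
  obtain ⟨S₃, hS₃⟩ := rcone_image L S₂
  have hrow : ∀ (i : Fin n) (x : Fin n → ℝ), ratVec (E i) ⬝ᵥ x = rmap E x i := by
    intro i x
    rw [rmap_apply]; rfl
  have hrown : ∀ (i : Fin n) (x : Fin n → ℝ), ratVec (- E i) ⬝ᵥ x = - rmap E x i := by
    intro i x
    rw [← hrow]
    simp [ratVec, dotProduct]
  have h2 : ∀ x, x ∈ rcone S₂ ↔ x ∈ rcone S₁ ∧ pull P (rmap L x) = x := by
    intro x
    rw [hS₂ x]
    refine and_congr_right fun _ => ?_
    constructor
    · intro h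
      have h0 : rmap E x = 0 := by
        funext i
        have h3 := h (E i) (by
          rw [List.mem_append]
          exact Or.inl (List.mem_map.2 ⟨i, by simp, rfl⟩))
        have h4 := h (- E i) (by
          rw [List.mem_append]
          exact Or.inr (List.mem_map.2 ⟨i, by simp, rfl⟩))
        rw [hrow] at h3
        rw [hrown] at h4
        show rmap E x i = 0
        exact le_antisymm (by linarith) h3
      rw [hEx, sub_eq_zero] at h0
      exact h0.symm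
    · intro h w hw
      have h0 : rmap E x = 0 := by rw [hEx, h, sub_self]
      rw [List.mem_append] at hw
      rcases hw with hw | hw
      · obtain ⟨i, _, rfl⟩ := List.mem_map.1 hw
        rw [hrow, h0]; rfl
      · obtain ⟨i, _, rfl⟩ := List.mem_map.1 hw
        rw [hrown, h0]; simp
  refine ⟨S₃, fun z => ?_⟩
  rw [hS₃ z]
  constructor
  · rintro ⟨x, hx, rfl⟩
    obtain ⟨h3, h4⟩ := (h2 x).1 hx
    obtain ⟨y, hy, hyx⟩ := (hS₁ x).1 h3
    refine ⟨y, hy, ?_⟩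
    rw [h4, ← hyx, hact]
  · rintro ⟨y, hy, hyz⟩
    refine ⟨pull P z, (h2 _).2 ⟨(hS₁ _).2 ⟨y, hy, by rw [hact, hyz]⟩, by rw [hL]⟩, hL z⟩

lemma finite_cosets {Γ : Type*} [Group Γ] (C D : Subgroup Γ) (h : C.relIndex D ≠ 0) :
    ∃ E : Finset Γ, (∀ e ∈ E, e ∈ D) ∧ ∀ d ∈ D, ∃ e ∈ E, d * e⁻¹ ∈ C := by
  classical
  have hfin : Finite (D ⧸ C.subgroupOf D) := Subgroup.index_ne_zero_iff_finite.1 h
  have : Fintype (D ⧸ C.subgroupOf D) := Fintype.ofFinite _
  refine ⟨Finset.univ.image (fun x : D ⧸ C.subgroupOf D => ((Quotient.out x : D) : Γ)⁻¹),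
    fun e he => ?_, fun d hd => ?_⟩
  · obtain ⟨x, _, rfl⟩ := Finset.mem_image.1 he
    exact D.inv_mem (Quotient.out x : D).2
  · set x : D ⧸ C.subgroupOf D := QuotientGroup.mk (⟨d⁻¹, D.inv_mem hd⟩ : D) with hx
    refine ⟨_, Finset.mem_image_of_mem _ (Finset.mem_univ x), ?_⟩
    have h1 : (QuotientGroup.mk (Quotient.out x : D) : D ⧸ C.subgroupOf D) = x :=
      Quotient.out_eq' x
    rw [hx] at h1
    have h2 := QuotientGroup.eq.1 h1
    have h3 : ((Quotient.out x : D) : Γ)⁻¹ * d⁻¹ ∈ C := by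
      have := Subgroup.mem_subgroupOf.1 h2
      exact this
    have h4 := C.inv_mem h3
    rw [mul_inv_rev, inv_inv, inv_inv] at h4
    rw [inv_inv]
    exact h4

lemma pull_continuous (P : Matrix (Fin n) (Fin m) ℤ) : Continuous (pull P) :=
  LinearMap.continuous_of_finiteDimensional _

theorem quotient_main
    (Nef Eff : PointedCone ℝ (Fin n → ℝ))
    (hNef : IsClosed (Nef : Set (Fin n → ℝ)))
    (hample : (interior (Nef : Set (Fin n → ℝ))).Nonempty)
    (hampleEff : interior (Nef : Set (Fin n → ℝ)) ⊆ (Eff : Set (Fin n → ℝ)))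
    (hsal : ∀ x, x ∈ Nef → -x ∈ Nef → x = 0)
    (G : Subgroup (GL (Fin n) ℤ))
    (hGNef : ∀ g ∈ G, ∀ x ∈ Nef, act g.val x ∈ Nef)
    (hGEff : ∀ g ∈ G, ∀ x ∈ Eff, act g.val x ∈ Eff)
    (S : Finset (Fin n → ℚ)) (hS : ∀ x ∈ rcone S, x ∈ Nef ∧ x ∈ Eff)
    (hcov : ∀ x, x ∈ Nef → x ∈ Eff → ∃ g ∈ G, ∃ y ∈ rcone S, act g.val y = x)
    (H : Subgroup (GL (Fin n) ℤ)) [Finite H]
    (hHNef : ∀ h ∈ H, ∀ x ∈ Nef, act h.val x ∈ Nef)
    (P : Matrix (Fin n) (Fin m) ℤ) (hP : Function.Injective (pull P))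
    (hPH : ∀ x, (∀ h ∈ H, act h.val x = x) ↔ ∃ z, pull P z = x)
    (C : Subgroup (GL (Fin n) ℤ)) (hC : ∀ g ∈ C, ∀ h ∈ H, g * h = h * g)
    (hCfin : C.relIndex (G ⊓ Subgroup.centralizer (H : Set (GL (Fin n) ℤ))) ≠ 0)
    (G' : Subgroup (GL (Fin m) ℤ))
    (hG'Nef : ∀ g ∈ G', ∀ z, pull P z ∈ Nef → pull P (act g.val z) ∈ Nef)
    (hG'Eff : ∀ g ∈ G', ∀ z, pull P z ∈ Eff → pull P (act g.val z) ∈ Eff)
    (hlift : ∀ g ∈ C, ∃ g' ∈ G', ∀ z, act g.val (pull P z) = pull P (act g'.val z)) :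
    ∃ S' : Finset (Fin m → ℚ),
      (∀ z ∈ rcone S', pull P z ∈ Nef ∧ pull P z ∈ Eff) ∧
      (∀ z, pull P z ∈ Nef → pull P z ∈ Eff → ∃ g ∈ G', ∃ y ∈ rcone S', act g.val y = z) ∧
      (∀ g ∈ G', g ≠ 1 → Disjoint
        (interior (rcone S' : Set (Fin m → ℝ)))
        (interior (act g.val '' (rcone S' : Set (Fin m → ℝ))))) := by
  classical
  obtain ⟨q, c, hc, hq⟩ := exists_pos_rat Nef hNef hsal
  have hSNef : ∀ s ∈ S, ratVec s ∈ Nef := fun s hs => (hS _ (mem_rcone hs)).1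
  have hHNef' : ∀ h ∈ H, ∀ x ∈ Nef, act h.val x ∈ Nef := hHNef
  -- the big group
  have hGH : ∀ γ ∈ G ⊔ H, ∀ x ∈ Nef, act γ.val x ∈ Nef := by
    have key : ∀ γ ∈ G ⊔ H, (∀ x ∈ Nef, act γ.val x ∈ Nef) ∧
        ∀ x ∈ Nef, act (γ⁻¹ : GL (Fin n) ℤ).val x ∈ Nef := by
      intro γ hγ
      rw [Subgroup.sup_eq_closure] at hγ
      induction hγ using Subgroup.closure_induction with
      | mem g hg =>
        rcases hg with hg | hg
        · exact ⟨hGNef g hg, hGNef _ (G.inv_mem hg)⟩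
        · exact ⟨hHNef g hg, hHNef _ (H.inv_mem hg)⟩
      | one => exact ⟨fun x hx => by simpa using hx, fun x hx => by simpa using hx⟩
      | mul a b _ _ ha hb =>
        refine ⟨fun x hx => ?_, fun x hx => ?_⟩
        · rw [Units.val_mul, act_mul_apply]
          exact ha.1 _ (hb.1 x hx)
        · rw [mul_inv_rev, Units.val_mul, act_mul_apply]
          exact hb.2 _ (ha.2 x hx)
      | inv a ha iha => exact ⟨iha.2, by rw [inv_inv]; exact iha.1⟩
    exact fun γ hγ => (key γ hγ).1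
  have hΦfin := siegel hc hq hGH S S hSNef hSNef
  set Φ := {γ : GL (Fin n) ℤ | γ ∈ G ⊔ H ∧ ∃ x ∈ rcone S, x ∈ interior (Nef : Set (Fin n → ℝ)) ∧
      act γ.val x ∈ rcone S} with hΦ
  -- elements which move the cone to meet the fixed space in the interior
  set Gs : Set (GL (Fin n) ℤ) := {g | g ∈ G ∧ ∃ y ∈ rcone S,
    act g.val y ∈ interior (Nef : Set (Fin n → ℝ)) ∧
      ∀ h ∈ H, act h.val (act g.val y) = act g.val y} with hGs
  have hconj : ∀ g ∈ Gs, ∀ h : H, g⁻¹ * h.1 * g ∈ Φ := by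
    rintro g ⟨hg, y, hy, hyK, hfix⟩ h
    have hyint : y ∈ interior (Nef : Set (Fin n → ℝ)) := by
      have := int_act hGNef (G.inv_mem hg) hyK
      rwa [act_val_inv] at this
    refine ⟨(G ⊔ H).mul_mem ((G ⊔ H).mul_mem (Subgroup.mem_sup_left (G.inv_mem hg))
      (Subgroup.mem_sup_right h.2)) (Subgroup.mem_sup_left hg), y, hy, hyint, ?_⟩
    have : act (g⁻¹ * h.1 * g : GL (Fin n) ℤ).val y = y := by
      rw [Units.val_mul, Units.val_mul, act_mul_apply, act_mul_apply, hfix h.1 h.2, act_val_inv]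
    rw [this]; exact hy
  let F : GL (Fin n) ℤ → (H → GL (Fin n) ℤ) := fun g h => g⁻¹ * h.1 * g
  have hFfin : (F '' Gs).Finite := by
    refine (Set.Finite.pi (fun _ : H => hΦfin)).subset ?_
    rintro _ ⟨g, hg, rfl⟩
    exact fun h _ => hconj g hg h
  have hrep : ∀ f : H → GL (Fin n) ℤ, ∃ r : GL (Fin n) ℤ, f ∈ F '' Gs → r ∈ Gs ∧ F r = f := by
    intro f
    by_cases hf : f ∈ F '' Gs
    · obtain ⟨r, hr, hrf⟩ := hf
      exact ⟨r, fun _ => ⟨hr, hrf⟩⟩
    · exact ⟨1, fun h => absurd h hf⟩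
  choose rep hrep using hrep
  set R : Finset (GL (Fin n) ℤ) := hFfin.toFinset.image rep with hR
  have hRGs : ∀ r ∈ R, r ∈ Gs := by
    intro r hr
    obtain ⟨f, hf, rfl⟩ := Finset.mem_image.1 hr
    exact (hrep f ((Set.Finite.mem_toFinset _).1 hf)).1
  have hRrep : ∀ g ∈ Gs, ∃ r ∈ R, ∀ h ∈ H, g⁻¹ * h * g = r⁻¹ * h * r := by
    intro g hg
    have hf : F g ∈ F '' Gs := ⟨g, hg, rfl⟩
    refine ⟨rep (F g), Finset.mem_image_of_mem _ ((Set.Finite.mem_toFinset _).2 hf),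
      fun h hh => ?_⟩
    have := congrFun (hrep (F g) hf).2 ⟨h, hh⟩
    exact this.symm
  obtain ⟨E, hED, hE⟩ := finite_cosets C _ hCfin
  -- the pulled back cones
  have hcom : ∀ a : GL (Fin n) ℤ, ∃ S' : Finset (Fin m → ℚ),
      ∀ z, z ∈ rcone S' ↔ ∃ y ∈ rcone S, act a.val y = pull P z := fun a =>
    rcone_comap P hP S a.val
  choose Sa hSa using hcom
  set S₀ : Finset (Fin m → ℚ) := E.biUnion (fun e => R.biUnion (fun r => Sa (e * r))) with hS₀def
  -- the cone downstairs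
  set K' : PointedCone ℝ (Fin m → ℝ) := Nef.comap (pull P) with hK'
  have hK'mem : ∀ z, z ∈ K' ↔ pull P z ∈ Nef := fun z => PointedCone.mem_comap
  have hcl' : IsClosed (K' : Set (Fin m → ℝ)) := by
    have : (K' : Set (Fin m → ℝ)) = (pull P) ⁻¹' (Nef : Set (Fin n → ℝ)) := by
      ext z; exact hK'mem z
    rw [this]
    exact hNef.preimage (pull_continuous P)
  have hsal' : ∀ z, z ∈ K' → -z ∈ K' → z = 0 := by
    intro z hz hz'
    rw [hK'mem] at hz hz'
    rw [map_neg] at hz'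
    have := hsal _ hz hz'
    exact hP (by rw [this, map_zero])
  -- an interior point
  obtain ⟨z₀, hz₀⟩ : ∃ z₀, pull P z₀ ∈ interior (Nef : Set (Fin n → ℝ)) := by
    obtain ⟨x₀, hx₀⟩ := hample
    have : Fintype H := Fintype.ofFinite H
    have hsum : (∑ h : H, act h.1.val x₀) ∈ interior (Nef : Set (Fin n → ℝ)) := by
      rw [← Finset.add_sum_erase _ _ (Finset.mem_univ (1 : H))]
      refine int_add ?_ (Submodule.sum_mem _ fun h _ => hHNef h.1 h.2 _ (interior_subset hx₀))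
      simpa using hx₀
    obtain ⟨z₀, hz₀⟩ := (hPH (∑ h : H, act h.1.val x₀)).1 (by
      intro k hk
      rw [map_sum]
      have h1 : ∀ h : H, act k.val (act h.1.val x₀) = act ((⟨k, hk⟩ * h : H)).1.val x₀ := by
        intro h
        rw [← act_mul_apply, ← Units.val_mul]; rfl
      rw [Finset.sum_congr rfl fun h _ => h1 h]
      exact Fintype.sum_equiv (Equiv.mulLeft (⟨k, hk⟩ : H)) _ _ fun h => rfl)
    exact ⟨z₀, by rw [hz₀]; exact hsum⟩
  have hint' : (interior (K' : Set (Fin m → ℝ))).Nonempty := by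
    refine ⟨z₀, mem_interior.2 ⟨(pull P) ⁻¹' interior (Nef : Set (Fin n → ℝ)), ?_,
      isOpen_interior.preimage (pull_continuous P), hz₀⟩⟩
    intro z hz
    exact (hK'mem z).2 (interior_subset hz)
  have hintdown : ∀ z ∈ interior (K' : Set (Fin m → ℝ)),
      pull P z ∈ interior (Nef : Set (Fin n → ℝ)) := by
    intro z hz
    have hlim : Tendsto (fun k : ℕ => z - ((k : ℝ) + 1)⁻¹ • z₀) atTop
        (𝓝 (z - (0 : ℝ) • z₀)) := by
      have h2 : Tendsto (fun k : ℕ => ((k : ℝ) + 1)⁻¹) atTop (𝓝 0) := by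
        have := tendsto_one_div_add_atTop_nhds_zero_nat (𝕜 := ℝ)
        simpa [one_div] using this
      exact tendsto_const_nhds.sub (h2.smul_const _)
    rw [zero_smul, sub_zero] at hlim
    obtain ⟨k, hk⟩ := (hlim.eventually (isOpen_interior.mem_nhds hz)).exists
    have hkpos : (0 : ℝ) < ((k : ℝ) + 1)⁻¹ := by positivity
    have h3 : pull P (z - ((k : ℝ) + 1)⁻¹ • z₀) ∈ Nef := (hK'mem _).1 (interior_subset hk)
    have h4 := int_add (int_smul hkpos hz₀) h3
    rw [map_sub, map_smul] at h4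
    have e : ((k : ℝ) + 1)⁻¹ • pull P z₀ + (pull P z - ((k : ℝ) + 1)⁻¹ • pull P z₀) = pull P z := by
      abel
    rwa [e] at h4
  have hG'K : ∀ γ ∈ G', ∀ z ∈ K', act γ.val z ∈ K' := by
    intro γ hγ z hz
    rw [hK'mem] at hz ⊢
    exact hG'Nef γ hγ z hz
  have hSaNE : ∀ a ∈ G, ∀ z ∈ rcone (Sa a), pull P z ∈ Nef ∧ pull P z ∈ Eff := by
    intro a ha z hz
    obtain ⟨y, hy, hyz⟩ := (hSa a z).1 hz
    rw [← hyz]
    exact ⟨hGNef a ha _ (hS y hy).1, hGEff a ha _ (hS y hy).2⟩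
  have hERG : ∀ e ∈ E, ∀ r ∈ R, e * r ∈ G := fun e he r hr =>
    G.mul_mem (Subgroup.mem_inf.1 (hED e he)).1 (hRGs r hr).1
  -- the finitely many generators
  have hS₀K : ∀ s ∈ S₀, ratVec s ∈ K' := by
    intro s hs
    obtain ⟨e, he, hs⟩ := Finset.mem_biUnion.1 hs
    obtain ⟨r, hr, hs⟩ := Finset.mem_biUnion.1 hs
    exact (hK'mem _).2 (hSaNE _ (hERG e he r hr) _ (mem_rcone hs)).1
  let NE : PointedCone ℝ (Fin m → ℝ) := Nef.comap (pull P) ⊓ Eff.comap (pull P)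
  have hNEmem : ∀ z, z ∈ NE ↔ pull P z ∈ Nef ∧ pull P z ∈ Eff := fun z => by
    rw [Submodule.mem_inf]
    exact and_congr PointedCone.mem_comap PointedCone.mem_comap
  have hS₀NE : ∀ z ∈ rcone S₀, pull P z ∈ Nef ∧ pull P z ∈ Eff := by
    intro z hz
    rw [← hNEmem]
    refine rcone_le (K := NE) (fun s hs => ?_) z hz
    obtain ⟨e, he, hs⟩ := Finset.mem_biUnion.1 hs
    obtain ⟨r, hr, hs⟩ := Finset.mem_biUnion.1 hs
    exact (hNEmem _).2 (hSaNE _ (hERG e he r hr) _ (mem_rcone hs))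
  have hcov' : ∀ z ∈ interior (K' : Set (Fin m → ℝ)), ∃ γ ∈ G', ∃ y ∈ rcone S₀,
      act γ.val y = z := by
    intro z hz
    have hx := hintdown z hz
    obtain ⟨g, hg, y, hy, hyx⟩ := hcov _ (interior_subset hx) (hampleEff hx)
    have hfix : ∀ h ∈ H, act h.val (pull P z) = pull P z := (hPH _).2 ⟨z, rfl⟩
    have hgGs : g ∈ Gs := ⟨hg, y, hy, by rw [hyx]; exact hx, by rw [hyx]; exact hfix⟩
    obtain ⟨r, hr, hrg⟩ := hRrep g hgGs
    have hrG : r ∈ G := (hRGs r hr).1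
    have hd : g * r⁻¹ ∈ G ⊓ Subgroup.centralizer (H : Set (GL (Fin n) ℤ)) := by
      refine Subgroup.mem_inf.2 ⟨G.mul_mem hg (G.inv_mem hrG), ?_⟩
      rw [Subgroup.mem_centralizer_iff]
      intro h hh
      have h1 := hrg h hh
      -- g⁻¹ h g = r⁻¹ h r
      have h2 : h * g = g * (r⁻¹ * h * r) := by rw [← h1]; group
      calc h * (g * r⁻¹) = (h * g) * r⁻¹ := by group
        _ = g * (r⁻¹ * h * r) * r⁻¹ := by rw [h2]
        _ = g * r⁻¹ * h := by group
    obtain ⟨e, he, hec⟩ := hE _ hd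
    obtain ⟨c', hc'G, hc'⟩ := hlift _ hec
    -- the point over the pulled back cone
    set cc : GL (Fin n) ℤ := g * r⁻¹ * e⁻¹ with hcc
    have hgcc : g = cc * (e * r) := by rw [hcc]; group
    set w : Fin n → ℝ := act (e * r : GL (Fin n) ℤ).val y with hw
    have hcw : act cc.val w = pull P z := by
      rw [hw, ← act_mul_apply, ← Units.val_mul, ← hgcc, hyx]
    have hwfix : ∀ h ∈ H, act h.val w = w := by
      intro h hh
      have h1 : act cc.val (act h.val w) = act cc.val w := by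
        rw [← act_mul_apply, ← Units.val_mul, hC cc hec h hh, Units.val_mul, act_mul_apply, hcw,
          hfix h hh]
      exact act_injective cc h1
    obtain ⟨v, hv⟩ := (hPH w).1 hwfix
    refine ⟨c', hc'G, v, ?_, ?_⟩
    · have h1 : v ∈ rcone (Sa (e * r)) := (hSa _ v).2 ⟨y, hy, by rw [hv]⟩
      refine rcone_mono ?_ h1
      intro s hs
      exact Finset.mem_biUnion.2 ⟨e, he, Finset.mem_biUnion.2 ⟨r, hr, hs⟩⟩
    · apply hP
      rw [← hc', hv, hcw]
  obtain ⟨S', hS'K, hS'cov, hS'dis⟩ := exact_domain K' hcl' hsal' hint' G' hG'K S₀ hS₀K hcov'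
  obtain ⟨q', c', hc', hq'⟩ := exists_pos_rat K' hcl' hsal'
  refine ⟨S', fun z hz => ?_, fun z hzN hzE => ?_, hS'dis⟩
  · obtain ⟨γ, hγ, y, hy, rfl⟩ := cover_rational hc' hq' hcl' hint' hG'K S₀ hS₀K hcov' S' hS'K z hz
    have h1 := hS₀NE y hy
    exact ⟨hG'Nef γ hγ y h1.1, hG'Eff γ hγ y h1.2⟩
  · obtain ⟨g, hg, y, hy, hyx⟩ := hcov _ hzN hzE
    have hz : z ∈ rcone (Sa g) := (hSa g z).2 ⟨y, hy, hyx⟩
    refine cover_rational hc' hq' hcl' hint' hG'K S' hS'K hS'cov (Sa g) (fun s hs => ?_) z hz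
    exact (hK'mem _).2 (hSaNE g hg _ (mem_rcone hs)).1

end Pool.Agent.H92Cone
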